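import Pool.Agent.Helper924_BF.Defs

/-! helper924, MP_8115c2_gt, job BF8 MEAS (towards the Besicovitch-Federer projection theorem): measurability.
PROOF IN WORDS. `(L, x) ↦ lin L x` is continuous. (1) `Meet`: the set is the union over `k : ℕ` of the images under the projection
`(p, x) ↦ p` of the closed sets `{(p, x) | x ∈ P, 1/(k+1) ≤ ‖x - p.1‖ ≤ δ - 1/(k+1), lin p.2 (x - p.1) = 0}`; since `P` is compact, the projection
of a closed subset of `Z × P` to `Z` is closed (`isClosedMap_fst_of_compactSpace` or `IsCompact` tube lemma), so `Meet` is a countable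
union of closed sets. (2) For fixed rational `r` and fixed `s` the set `{(p, x) | x ∈ P ∩ Zr p.1 j ∩ cone p.2 p.1 r s}` is Borel in the product
(closed, closed and open conditions), so `p ↦ μ (P ∩ Zr p.1 j ∩ cone p.2 p.1 r s)` is measurable (`measurable_measure_prodMk_left`, `μ` finite).
`ZeroAlt` is equivalent to the same statement with `ε = 1/(k+1)`, `k : ℕ`, and both `ZeroAlt` and `InfAlt` are then countable
Boolean combinations of sets `{p | c < g p}` with `g` measurable. -/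
open MeasureTheory Metric Set Filter
open scoped ENNReal NNReal Topology

namespace Pool.Agent.Helper924_BF

theorem meas_alt_lin {ι : Type} [Fintype ι] {n : ℕ} {Z : Type} [TopologicalSpace Z] {f : Z → (ι → Fin n → ℝ)}
    {g : Z → (ι → ℝ)} (hf : Continuous f) (hg : Continuous g) : Continuous (fun z => lin (f z) (g z)) := by
  unfold lin
  refine continuous_finsetSum _ (fun j _ => ?_)
  exact ((continuous_apply j).comp hg).smul ((continuous_apply j).comp hf)

theorem meas_alt_sigma {X Y : Type} [TopologicalSpace X] [TopologicalSpace Y] [T2Space Y] [MeasurableSpace Y]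
    [OpensMeasurableSpace Y] {s : Set X} (hs : IsSigmaCompact s) {f : X → Y} (hf : Continuous f) :
    MeasurableSet (f '' s) := by
  obtain ⟨K, hK, hU⟩ := hs.image hf
  rw [← hU]
  exact MeasurableSet.iUnion (fun n => (hK n).isClosed.measurableSet)

theorem meas_alt_meet {ι : Type} [Fintype ι] {n : ℕ} (P : Set (ι → ℝ)) (hP : IsCompact P) (δ : ℝ) :
    MeasurableSet {p : (ι → ℝ) × (ι → Fin n → ℝ) | Meet P δ p.1 p.2} := by
  have hcl : ∀ k : ℕ, IsClosed {q : ((ι → ℝ) × (ι → Fin n → ℝ)) × (ι → ℝ) | q.2 ∈ P ∧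
      (1 / ((k : ℝ) + 1) ≤ ‖q.2 - q.1.1‖ ∧ (‖q.2 - q.1.1‖ ≤ δ - 1 / ((k : ℝ) + 1) ∧ lin q.1.2 (q.2 - q.1.1) = 0))} := by
    intro k
    have c1 : Continuous (fun q : ((ι → ℝ) × (ι → Fin n → ℝ)) × (ι → ℝ) => q.2 - q.1.1) := by fun_prop
    have c2 : Continuous (fun q : ((ι → ℝ) × (ι → Fin n → ℝ)) × (ι → ℝ) => lin q.1.2 (q.2 - q.1.1)) :=
      meas_alt_lin (by fun_prop) c1
    exact (hP.isClosed.preimage continuous_snd).inter
      ((isClosed_le continuous_const c1.norm).inter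
        ((isClosed_le c1.norm continuous_const).inter (isClosed_eq c2 continuous_const)))
  have hset : {p : (ι → ℝ) × (ι → Fin n → ℝ) | Meet P δ p.1 p.2} =
      ⋃ k : ℕ, Prod.fst '' {q : ((ι → ℝ) × (ι → Fin n → ℝ)) × (ι → ℝ) | q.2 ∈ P ∧
      (1 / ((k : ℝ) + 1) ≤ ‖q.2 - q.1.1‖ ∧ (‖q.2 - q.1.1‖ ≤ δ - 1 / ((k : ℝ) + 1) ∧ lin q.1.2 (q.2 - q.1.1) = 0))} := by
    ext p
    simp only [mem_ofPred_eq, mem_iUnion, mem_image, Meet]
    constructor
    · rintro ⟨x, hx, hne, hlt, hl⟩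
      have h1 : 0 < ‖x - p.1‖ := norm_pos_iff.2 (sub_ne_zero.2 hne)
      have h2 : 0 < δ - ‖x - p.1‖ := by linarith
      obtain ⟨k, hk⟩ := exists_nat_one_div_lt (lt_min h1 h2)
      exact ⟨k, (p, x), ⟨hx, (hk.trans_le (min_le_left _ _)).le,
        by have := hk.trans_le (min_le_right _ _); simp only; linarith, hl⟩, rfl⟩
    · rintro ⟨k, q, ⟨hx, h1, h2, h3⟩, rfl⟩
      have h0 : (0 : ℝ) < 1 / ((k : ℝ) + 1) := Nat.one_div_pos_of_nat
      refine ⟨q.2, hx, ?_, by linarith, h3⟩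
      intro he
      rw [he, sub_self, norm_zero] at h1
      linarith
  rw [hset]
  refine MeasurableSet.iUnion (fun k => ?_)
  exact meas_alt_sigma (isSigmaCompact_univ.of_isClosed_subset (hcl k) (subset_univ _)) continuous_fst

theorem meas_alt_fun {ι : Type} [Fintype ι] {n : ℕ} (μ : Measure (ι → ℝ)) [IsFiniteMeasure μ] (P : Set (ι → ℝ))
    (hP : IsCompact P) (j : ι) (r s : ℝ) :
    Measurable (fun p : (ι → ℝ) × (ι → Fin n → ℝ) => μ (P ∩ Zr p.1 j ∩ cone p.2 p.1 r s)) := by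
  have hS : MeasurableSet {q : ((ι → ℝ) × (ι → Fin n → ℝ)) × (ι → ℝ) |
      q.2 ∈ P ∩ Zr q.1.1 j ∩ cone q.1.2 q.1.1 r s} := by
    have c1 : Continuous (fun q : ((ι → ℝ) × (ι → Fin n → ℝ)) × (ι → ℝ) => q.2 - q.1.1) := by fun_prop
    have c2 : Continuous (fun q : ((ι → ℝ) × (ι → Fin n → ℝ)) × (ι → ℝ) => lin q.1.2 (q.2 - q.1.1)) :=
      meas_alt_lin (by fun_prop) c1
    have c3 : Continuous (fun q : ((ι → ℝ) × (ι → Fin n → ℝ)) × (ι → ℝ) => |q.2 j - q.1.1 j|) := by fun_prop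
    have m1 : MeasurableSet {q : ((ι → ℝ) × (ι → Fin n → ℝ)) × (ι → ℝ) | q.2 ∈ P} :=
      (hP.isClosed.preimage continuous_snd).measurableSet
    have m2 : MeasurableSet {q : ((ι → ℝ) × (ι → Fin n → ℝ)) × (ι → ℝ) | |q.2 j - q.1.1 j| = ‖q.2 - q.1.1‖} :=
      (isClosed_eq c3 c1.norm).measurableSet
    have m3 : MeasurableSet {q : ((ι → ℝ) × (ι → Fin n → ℝ)) × (ι → ℝ) | ‖q.2 - q.1.1‖ < r} :=
      (isOpen_lt c1.norm continuous_const).measurableSet
    have m4 : MeasurableSet {q : ((ι → ℝ) × (ι → Fin n → ℝ)) × (ι → ℝ) |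
        ‖lin q.1.2 (q.2 - q.1.1)‖ < s * ‖q.2 - q.1.1‖} :=
      (isOpen_lt c2.norm (continuous_const.mul c1.norm)).measurableSet
    exact (m1.inter m2).inter (m3.inter m4)
  exact measurable_measure_prodMk_left hS

theorem meas_alt {ι : Type} [Fintype ι] {n : ℕ} (μ : Measure (ι → ℝ)) [IsFiniteMeasure μ] (P : Set (ι → ℝ)) (hP : IsCompact P)
    (δ : ℝ) (j : ι) :
    MeasurableSet {p : (ι → ℝ) × (ι → Fin n → ℝ) | Meet P δ p.1 p.2} ∧
    MeasurableSet {p : (ι → ℝ) × (ι → Fin n → ℝ) | ZeroAlt μ P δ p.1 p.2 j} ∧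
    MeasurableSet {p : (ι → ℝ) × (ι → Fin n → ℝ) | InfAlt μ P δ p.1 p.2 j} := by
  refine ⟨meas_alt_meet P hP δ, ?_, ?_⟩
  · have hset : {p : (ι → ℝ) × (ι → Fin n → ℝ) | ZeroAlt μ P δ p.1 p.2 j} =
        {p : (ι → ℝ) × (ι → Fin n → ℝ) | ∀ k : ℕ, ∃ m₀ : ℕ, ∀ m : ℕ, m ≥ m₀ → ∀ r : ℚ, 0 < (r : ℝ) → (r : ℝ) < δ →
          μ (P ∩ Zr p.1 j ∩ cone p.2 p.1 r ((1 / 2) ^ m)) ≤
            ENNReal.ofReal ((1 / ((k : ℝ) + 1)) * (r * (1 / 2) ^ m) ^ n)} := by
      ext p
      simp only [mem_ofPred_eq]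
      constructor
      · intro h k
        exact h _ Nat.one_div_pos_of_nat
      · intro h ε hε
        obtain ⟨k, hk⟩ := exists_nat_one_div_lt hε
        obtain ⟨m₀, hm₀⟩ := h k
        refine ⟨m₀, fun m hm r hr hr' => (hm₀ m hm r hr hr').trans (ENNReal.ofReal_le_ofReal ?_)⟩
        exact mul_le_mul_of_nonneg_right hk.le (by positivity)
    rw [hset]
    simp only [ofPred_forall, ofPred_exists]
    refine MeasurableSet.iInter fun k => MeasurableSet.iUnion fun m₀ => MeasurableSet.iInter fun m =>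
      MeasurableSet.iInter fun _ => MeasurableSet.iInter fun r => MeasurableSet.iInter fun _ =>
      MeasurableSet.iInter fun _ => ?_
    exact measurableSet_le (meas_alt_fun μ P hP j _ _) measurable_const
  · unfold InfAlt
    simp only [ofPred_forall, ofPred_exists, ofPred_and]
    refine MeasurableSet.iInter fun K => MeasurableSet.iInter fun m₀ => MeasurableSet.iUnion fun m =>
      (MeasurableSet.const _).inter (MeasurableSet.iUnion fun r => (MeasurableSet.const _).inter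
      ((MeasurableSet.const _).inter ?_))
    exact measurableSet_lt measurable_const (meas_alt_fun μ P hP j _ _)

end Pool.Agent.Helper924_BF
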