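import Pool.Agent.Helper924_BF.Column
import Pool.Agent.Helper924_BF.Meas

/-! helper924, MP_8115c2_gt, job BF9 FUBINI (towards the Besicovitch-Federer projection theorem): from columns to almost all linear maps.
PROOF IN WORDS. Fix `j` and put `N = {p | ¬ (Meet P δ p.1 p.2 ∨ ZeroAlt μ P δ p.1 p.2 j ∨ InfAlt μ P δ p.1 p.2 j)}`, measurable by `meas_alt` (given).
Fix `a` and let `N_a` be its section, a measurable subset of `ι → Fin n → ℝ`. By `column` (given), for every `L₀` the set of `b` with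
`L₀ + Pi.single j b ∈ N_a` is null. Apply Tonelli to the indicator of `{(L₀, b) | L₀ + Pi.single j b ∈ N_a}` on
`(ι → Fin n → ℝ) × (Fin n → ℝ)`: integrating over `b` first gives `0`; integrating over `L₀` first gives, by translation invariance of
`volume`, `volume N_a * volume (univ : Set (Fin n → ℝ))`, and `volume univ ≠ 0`. So `volume N_a = 0` for every `a`. By Tonelli on
`(ι → ℝ) × (ι → Fin n → ℝ)` with `μ × volume`, `N` is null, so for almost all `L`, for `μ`-almost all `a`, `(a, L) ∉ N`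
(`Measure.ae_ae_of_ae_prod`, after swapping the factors). Intersect over the finitely many `j`. -/
open MeasureTheory Metric Set Filter
open scoped ENNReal NNReal Topology

namespace Pool.Agent.Helper924_BF

/-- auxiliary: the bad set of linear maps for a fixed point is null -/
theorem alt_ae_aux {ι : Type} [Fintype ι] {n : ℕ} (μ : Measure (ι → ℝ)) [IsFiniteMeasure μ] (P : Set (ι → ℝ))
    (hP : IsCompact P) (δ : ℝ) (j : ι) (a : ι → ℝ) :
    ∀ᵐ L : ι → Fin n → ℝ, Meet P δ a L ∨ ZeroAlt μ P δ a L j ∨ InfAlt μ P δ a L j := by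
  classical
  obtain ⟨h1, h2, h3⟩ := meas_alt (n := n) μ P hP δ j
  have hG : MeasurableSet {p : (ι → ℝ) × (ι → Fin n → ℝ) |
      Meet P δ p.1 p.2 ∨ ZeroAlt μ P δ p.1 p.2 j ∨ InfAlt μ P δ p.1 p.2 j} := h1.union (h2.union h3)
  have hGa : MeasurableSet {L : ι → Fin n → ℝ | Meet P δ a L ∨ ZeroAlt μ P δ a L j ∨ InfAlt μ P δ a L j} :=
    measurable_prodMk_left hG
  set Na : Set (ι → Fin n → ℝ) :=
    {L : ι → Fin n → ℝ | Meet P δ a L ∨ ZeroAlt μ P δ a L j ∨ InfAlt μ P δ a L j}ᶜ with hNa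
  have hNam : MeasurableSet Na := hGa.compl
  have hmap : Measurable fun q : (ι → Fin n → ℝ) × (Fin n → ℝ) =>
      q.1 + (Pi.single j q.2 : ι → Fin n → ℝ) := by
    refine measurable_fst.add ?_
    refine measurable_pi_iff.mpr fun i => ?_
    by_cases h : i = j
    · subst h
      simp only [Pi.single_eq_same]
      exact measurable_snd
    · simp only [Pi.single_eq_of_ne h]
      exact measurable_const
  set E : Set ((ι → Fin n → ℝ) × (Fin n → ℝ)) := {q | q.1 + (Pi.single j q.2 : ι → Fin n → ℝ) ∈ Na} with hE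
  have hEm : MeasurableSet E := hmap hNam
  have hE0 : ((volume : Measure (ι → Fin n → ℝ)).prod (volume : Measure (Fin n → ℝ))) E = 0 := by
    rw [Measure.measure_prod_null hEm]
    refine Filter.Eventually.of_forall fun L₀ => ?_
    have hc := column μ P hP δ a j L₀
    exact hc
  rw [Measure.prod_apply_symm hEm] at hE0
  have hinv : ∀ b : Fin n → ℝ, (volume : Measure (ι → Fin n → ℝ)) ((fun L₀ => (L₀, b)) ⁻¹' E) = volume Na := by
    intro b
    have : ((fun L₀ : ι → Fin n → ℝ => (L₀, b)) ⁻¹' E) =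
        (fun L₀ : ι → Fin n → ℝ => L₀ + (Pi.single j b : ι → Fin n → ℝ)) ⁻¹' Na := rfl
    rw [this, measure_preimage_add_right]
  simp only [hinv, lintegral_const, mul_eq_zero] at hE0
  rcases hE0 with h | h
  · exact h
  · exact absurd h (isOpen_univ.measure_ne_zero volume univ_nonempty)

theorem alt_ae {ι : Type} [Fintype ι] {n : ℕ} (μ : Measure (ι → ℝ)) [IsFiniteMeasure μ] (P : Set (ι → ℝ)) (hP : IsCompact P)
    (δ : ℝ) :
    ∀ᵐ L : ι → Fin n → ℝ, ∀ᵐ a ∂μ, ∀ j, Meet P δ a L ∨ ZeroAlt μ P δ a L j ∨ InfAlt μ P δ a L j := by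
  classical
  have hj : ∀ j : ι, ∀ᵐ L : ι → Fin n → ℝ, ∀ᵐ a ∂μ,
      Meet P δ a L ∨ ZeroAlt μ P δ a L j ∨ InfAlt μ P δ a L j := by
    intro j
    obtain ⟨h1, h2, h3⟩ := meas_alt (n := n) μ P hP δ j
    have hG : MeasurableSet {p : (ι → ℝ) × (ι → Fin n → ℝ) |
        Meet P δ p.1 p.2 ∨ ZeroAlt μ P δ p.1 p.2 j ∨ InfAlt μ P δ p.1 p.2 j} := h1.union (h2.union h3)
    rw [← Measure.ae_ae_comm (p := fun (a : ι → ℝ) (L : ι → Fin n → ℝ) =>
      Meet P δ a L ∨ ZeroAlt μ P δ a L j ∨ InfAlt μ P δ a L j) hG]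
    exact Filter.Eventually.of_forall fun a => alt_ae_aux μ P hP δ j a
  have hall : ∀ᵐ L : ι → Fin n → ℝ, ∀ j : ι, ∀ᵐ a ∂μ,
      Meet P δ a L ∨ ZeroAlt μ P δ a L j ∨ InfAlt μ P δ a L j := ae_all_iff.mpr hj
  filter_upwards [hall] with L hL
  exact ae_all_iff.mpr hL

end Pool.Agent.Helper924_BF
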