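import Pool.Agent.Helper924_BF.ConeLemma

/-! helper924, MP_8115c2_gt, job BF2 CONENULL (towards the Besicovitch-Federer projection theorem).
PROOF IN WORDS. Let `A` be the set in the statement. First pass from rational to real radii: `P ∩ cone L a r s` is the increasing union of
`P ∩ cone L a q s` over rational `q < r` (directed countable union, `Directed.measure_iUnion` or similar), so the bound in the
definition of `A` holds for all real `0 < r < δ`. For every set `T` with `2 * diam T < δ`, `cone_lemma` (given) applied to `A ∩ T`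
and `ρ = diam T` gives `μH[n] (A ∩ T) ≤ 2 lam (48 (c+1) diam T)^n = (1/2) (diam T)^n` for `lam = 1/(4 (48 (c+1))^n)`. So the
outer measure `T ↦ μH[n] (A ∩ T)` is at most `(1/2) μH[n]` (`MeasureTheory.OuterMeasure.le_mkMetric` with the gauge
`fun r => (1/2) * r ^ n` and `OuterMeasure.mkMetric_smul`, `OuterMeasure.coe_mkMetric`; use `ediam T ≤ δ/4` as threshold); evaluated at `A`:
`μH[n] A ≤ (1/2) μH[n] A`, and `μH[n] A ≤ μH[n] P < ∞`, so `μH[n] A = 0`. -/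
open MeasureTheory Metric Set Filter
open scoped ENNReal NNReal Topology

namespace Pool.Agent.Helper924_BF

theorem cone_null_real {ι : Type} [Fintype ι] {n : ℕ} (L : ι → Fin n → ℝ) (P : Set (ι → ℝ)) (s δ lam : ℝ)
    (hs : 0 < s) (hlam : 0 ≤ lam) (a : ι → ℝ)
    (H : ∀ r : ℚ, 0 < (r : ℝ) → (r : ℝ) < δ →
      μH[(n : ℝ)] (P ∩ cone L a r s) ≤ ENNReal.ofReal (lam * (r * s) ^ n))
    (r : ℝ) (hr : 0 < r) (hrδ : r < δ) :
    μH[(n : ℝ)] (P ∩ cone L a r s) ≤ ENNReal.ofReal (lam * (r * s) ^ n) := by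
  have hU : P ∩ cone L a r s = ⋃ q : {q : ℚ // 0 < (q : ℝ) ∧ (q : ℝ) < r}, P ∩ cone L a (q.1 : ℝ) s := by
    ext x
    simp only [Set.mem_inter_iff, Set.mem_iUnion]
    constructor
    · rintro ⟨h1, h2, h3⟩
      obtain ⟨q, hq1, hq2⟩ := exists_rat_btwn h2
      exact ⟨⟨q, (norm_nonneg _).trans_lt hq1, hq2⟩, h1, hq1, h3⟩
    · rintro ⟨q, h1, h2, h3⟩
      exact ⟨h1, h2.trans q.2.2, h3⟩
  rw [hU]
  have hd : Directed (· ⊆ ·) (fun q : {q : ℚ // 0 < (q : ℝ) ∧ (q : ℝ) < r} => P ∩ cone L a (q.1 : ℝ) s) := by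
    apply Monotone.directed_le
    intro p q hpq x hx
    refine ⟨hx.1, hx.2.1.trans_le ?_, hx.2.2⟩
    exact_mod_cast hpq
  rw [hd.measure_iUnion]
  refine iSup_le fun q => (H q.1 q.2.1 (q.2.2.trans hrδ)).trans (ENNReal.ofReal_le_ofReal ?_)
  refine mul_le_mul_of_nonneg_left (pow_le_pow_left₀ (mul_nonneg q.2.1.le hs.le) ?_ n) hlam
  exact mul_le_mul_of_nonneg_right q.2.2.le hs.le

theorem cone_null {ι : Type} [Fintype ι] {n : ℕ} (hn : 0 < n) (L : ι → Fin n → ℝ) (c : ℝ) (hc0 : 0 ≤ c)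
    (hc : ∀ x, ‖lin L x‖ ≤ c * ‖x‖) (P : Set (ι → ℝ)) (hP : PU n P) (hfin : μH[(n : ℝ)] P ≠ ∞)
    (s δ : ℝ) (hs : 0 < s) (hs1 : s ≤ 1) (hδ : 0 < δ) :
    μH[(n : ℝ)] {a | a ∈ P ∧ ∀ r : ℚ, 0 < (r : ℝ) → (r : ℝ) < δ →
      μH[(n : ℝ)] (P ∩ cone L a r s) ≤ ENNReal.ofReal (1 / (4 * (48 * (c + 1)) ^ n) * (r * s) ^ n)} = 0 := by
  set A : Set (ι → ℝ) := {a | a ∈ P ∧ ∀ r : ℚ, 0 < (r : ℝ) → (r : ℝ) < δ →
      μH[(n : ℝ)] (P ∩ cone L a r s) ≤ ENNReal.ofReal (1 / (4 * (48 * (c + 1)) ^ n) * (r * s) ^ n)} with hA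
  have hAP : A ⊆ P := fun a ha => ha.1
  have hc1 : 0 < 48 * (c + 1) := by linarith
  have hcn : 0 < (48 * (c + 1)) ^ n := pow_pos hc1 n
  have hlam : 0 ≤ 1 / (4 * (48 * (c + 1)) ^ n) := by positivity
  have hT : ∀ T : Set (ι → ℝ), ediam T ≤ ENNReal.ofReal (δ / 4) →
      2 * μH[(n : ℝ)] (A ∩ T) ≤ ediam T ^ (n : ℝ) := by
    intro T hT
    have hTt : ediam T ≠ ⊤ := ne_top_of_le_ne_top ENNReal.ofReal_ne_top hT
    have hbd : Bornology.IsBounded T := Metric.isBounded_iff_ediam_ne_top.2 hTt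
    have hdT : Metric.diam T ≤ δ / 4 := by
      unfold Metric.diam
      exact ENNReal.toReal_le_of_le_ofReal (by linarith) hT
    have h0 : 0 ≤ Metric.diam T := Metric.diam_nonneg
    have h1 := cone_lemma hn L c hc0 hc P hP (A ∩ T) (fun x hx => hAP hx.1) s δ (Metric.diam T)
      (1 / (4 * (48 * (c + 1)) ^ n)) hs hs1 h0 (by linarith) hlam
      (fun x hx y hy => by rw [← dist_eq_norm]; exact Metric.dist_le_diam_of_mem hbd hx.2 hy.2)
      (fun a ha r hr hrδ => cone_null_real L P s δ _ hs hlam a ha.1.2 r hr hrδ)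
    have h2 : 2 * (1 / (4 * (48 * (c + 1)) ^ n)) * (48 * (c + 1) * Metric.diam T) ^ n =
        2⁻¹ * Metric.diam T ^ n := by
      rw [mul_pow (48 * (c + 1)) (Metric.diam T) n]
      have h3 : (48 * (c + 1)) ^ n ≠ 0 := hcn.ne'
      generalize (48 * (c + 1)) ^ n = X at h3
      field_simp
      norm_num
    rw [h2] at h1
    calc 2 * μH[(n : ℝ)] (A ∩ T) ≤ 2 * ENNReal.ofReal (2⁻¹ * Metric.diam T ^ n) := by gcongr
      _ = ENNReal.ofReal (Metric.diam T ^ n) := by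
          rw [← ENNReal.ofReal_ofNat 2, ← ENNReal.ofReal_mul (by norm_num)]
          congr 1
          ring
      _ = ediam T ^ (n : ℝ) := by
          rw [ENNReal.ofReal_pow h0, ENNReal.rpow_natCast]
          congr 1
          exact ENNReal.ofReal_toReal hTt
  have hkey : 2 * μH[(n : ℝ)] A ≤ μH[(n : ℝ)] A := by
    rw [Measure.hausdorffMeasure_apply]
    refine le_trans ?_ (le_iSup₂ (f := fun (r : ℝ≥0∞) (_ : 0 < r) => ⨅ (t : ℕ → Set (ι → ℝ)) (_ : A ⊆ ⋃ n, t n)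
      (_ : ∀ n, ediam (t n) ≤ r), ∑' k, ⨆ _ : (t k).Nonempty, ediam (t k) ^ (n : ℝ)) (ENNReal.ofReal (δ / 4))
      (ENNReal.ofReal_pos.2 (by linarith)))
    rw [← Measure.hausdorffMeasure_apply]
    refine le_iInf fun t => le_iInf fun ht => le_iInf fun htd => ?_
    have hAt : μH[(n : ℝ)] A ≤ ∑' k, μH[(n : ℝ)] (A ∩ t k) := by
      calc μH[(n : ℝ)] A ≤ μH[(n : ℝ)] (⋃ k, A ∩ t k) := by
            apply measure_mono
            intro x hx
            obtain ⟨k, hk⟩ := Set.mem_iUnion.1 (ht hx)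
            exact Set.mem_iUnion.2 ⟨k, hx, hk⟩
        _ ≤ _ := measure_iUnion_le _
    calc 2 * μH[(n : ℝ)] A ≤ 2 * ∑' k, μH[(n : ℝ)] (A ∩ t k) := by gcongr
      _ = ∑' k, 2 * μH[(n : ℝ)] (A ∩ t k) := by rw [ENNReal.tsum_mul_left]
      _ ≤ _ := by
          refine ENNReal.tsum_le_tsum fun k => ?_
          rcases (t k).eq_empty_or_nonempty with h | h
          · rw [h, Set.inter_empty, measure_empty, mul_zero]
            exact zero_le
          · exact (hT _ (htd k)).trans (le_iSup (fun _ : (t k).Nonempty => ediam (t k) ^ (n : ℝ)) h)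
  have hfA : μH[(n : ℝ)] A ≠ ∞ := ne_top_of_le_ne_top hfin (measure_mono hAP)
  by_contra h0
  have : μH[(n : ℝ)] A < 2 * μH[(n : ℝ)] A := by
    rw [two_mul]
    exact ENNReal.lt_add_right hfA h0
  exact absurd hkey (not_le.2 this)

end Pool.Agent.Helper924_BF
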