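import Pool.Agent.Helper924_BF.Defs

/-! helper924, MP_8115c2_gt, job BF3 DENS (towards the Besicovitch-Federer projection theorem).
PROOF IN WORDS. By `Besicovitch.ae_tendsto_rnDeriv ν volume` and `Measure.rnDeriv_lt_top`, for almost every `y` the quotient
`ν (closedBall y t) / volume (closedBall y t)` has a finite limit as `t → 0+`, and `volume (closedBall y t) = (2 t)^n`
(`Real.volume_pi_closedBall`). At such a `y` the displayed condition fails for `K` larger than `2^n` times the limit. -/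
open MeasureTheory Metric Set Filter
open scoped ENNReal NNReal Topology

namespace Pool.Agent.Helper924_BF

theorem dens_null {n : ℕ} (ν : Measure (Fin n → ℝ)) [IsFiniteMeasure ν] :
    volume {y : Fin n → ℝ | ∀ K : ℕ, ∀ ε : ℝ, 0 < ε → ∃ t : ℝ, 0 < t ∧ t < ε ∧
      ENNReal.ofReal (K * t ^ n) < ν (ball y t)} = 0 := by
  have h1 := Besicovitch.ae_tendsto_rnDeriv ν (volume : Measure (Fin n → ℝ))
  have h2 := Measure.rnDeriv_lt_top ν (volume : Measure (Fin n → ℝ))
  refine measure_mono_null ?_ (ae_iff.mp (h1.and h2))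
  intro y hy hcon
  obtain ⟨ht, hlt⟩ := hcon
  obtain ⟨K', hK'⟩ := ENNReal.exists_nat_gt hlt.ne
  have hev := ht.eventually (gt_mem_nhds hK')
  rw [eventually_nhdsWithin_iff, Metric.eventually_nhds_iff] at hev
  obtain ⟨ε, hε, hh⟩ := hev
  obtain ⟨t, ht0, htε, hlt⟩ := hy (K' * 2 ^ n) ε hε
  have h3 := hh (y := t) (by simpa [Real.dist_eq, abs_of_pos ht0] using htε) ht0
  rw [Real.volume_pi_closedBall y ht0.le, Fintype.card_fin] at h3
  have hpos : 0 < (2 * t) ^ n := by positivity
  rw [ENNReal.div_lt_iff (Or.inl (by simpa using hpos)) (Or.inl ENNReal.ofReal_ne_top)] at h3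
  have h4 : (K' : ℝ≥0∞) * ENNReal.ofReal ((2 * t) ^ n) = ENNReal.ofReal (((K' * 2 ^ n : ℕ) : ℝ) * t ^ n) := by
    rw [← ENNReal.ofReal_natCast, ← ENNReal.ofReal_mul (by positivity)]
    congr 1
    push_cast
    rw [mul_pow]
    ring
  rw [h4] at h3
  exact absurd (hlt.trans_le (measure_mono ball_subset_closedBall)) (not_lt.mpr h3.le)

end Pool.Agent.Helper924_BF
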