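import Pool.Agent.Helper924_BF.Defs

/-! helper924, MP_8115c2_gt, job BF4 FIBRE (towards the Besicovitch-Federer projection theorem): almost all fibres are finite.
PROOF IN WORDS. For `m : ℕ` and `k : ι → ℤ` let `Q_{m,k}` be the half open cube `∏ [k_i 2^{-m}, (k_i+1) 2^{-m})`. The sets
`P ∩ Q_{m,k}` are sigma-compact (a half open cube is a countable union of closed cubes), so `f '' (P ∩ Q_{m,k})` is sigma-compact, hence
Borel. Put `N_m(y) = #{k : y ∈ f '' (P ∩ Q_{m,k})}` (a sum of indicators, in `ℝ≥0∞`). Then `∫ N_m = ∑_k volume (f '' (P ∩ Q_{m,k})) ≤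
∑_k C^n μH[n] (P ∩ Q_{m,k}) = C^n μH[n] P < ∞` (`LipschitzWith.hausdorffMeasure_image_le`, and `μH[n] = volume` on
`Fin n → ℝ`: `MeasureTheory.hausdorffMeasure_pi_real`). If `y = f a` with `a` in the displayed set then the fibre
`P ∩ f⁻¹ {y}` is infinite, so for each `M` there is an `m` with `N_m(y) ≥ M` (choose `M` distinct points of the fibre, `m` with `2^{-m}`
smaller than their distances), and `N_m` is nondecreasing in `m` (each cube of level `m+1` lies in one of level `m`; every cube of level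
`m` that meets the fibre contains a cube of level `m+1` that meets it). By Markov and monotonicity
`volume {y : ∃ m, N_m y ≥ M} ≤ C^n μH[n] P / M` for every `M`. (Any other route is fine, e.g. Fatou for `liminf N_m`.) -/
open MeasureTheory Metric Set Filter
open scoped ENNReal NNReal Topology

namespace Pool.Agent.Helper924_BF

/-- the cube of level `m` containing a point -/
noncomputable def qq316 {ι : Type} (m : ℕ) (x : ι → ℝ) : ι → ℤ := fun i => ⌊x i * m⌋

theorem qq316_meas {ι : Type} [Fintype ι] (m : ℕ) (k : ι → ℤ) :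
    MeasurableSet ((qq316 m : (ι → ℝ) → (ι → ℤ)) ⁻¹' {k}) := by
  have h0 : ∀ i : ι, Measurable (fun x : ι → ℝ => x i * (m : ℝ)) := fun i =>
    Measurable.mul_const (measurable_pi_apply i) _
  have h : Measurable (qq316 m : (ι → ℝ) → (ι → ℤ)) :=
    measurable_pi_lambda _ fun i => Int.measurable_floor.comp (h0 i)
  exact h (measurableSet_singleton k)

theorem qq316_sep {ι : Type} {x y : ι → ℝ} (h : x ≠ y) : ∀ᶠ m : ℕ in atTop, qq316 m x ≠ qq316 m y := by
  obtain ⟨i, hi⟩ := Function.ne_iff.mp h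
  have hpos : 0 < |x i - y i| := abs_pos.mpr (sub_ne_zero.mpr hi)
  have h1 : ∀ᶠ m : ℕ in atTop, 1 / |x i - y i| < (m : ℝ) :=
    tendsto_natCast_atTop_atTop.eventually_gt_atTop _
  filter_upwards [h1] with m hm heq
  have h2 : ⌊x i * m⌋ = ⌊y i * m⌋ := congrFun heq i
  have h3 := Int.abs_sub_lt_one_of_floor_eq_floor h2
  rw [← sub_mul, abs_mul, Nat.abs_cast] at h3
  rw [div_lt_iff₀ hpos] at hm
  linarith [mul_comm |x i - y i| (m : ℝ)]

theorem infinite316 {ι : Type} [Fintype ι] {n : ℕ} (f : (ι → ℝ) → (Fin n → ℝ))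
    (P : Set (ι → ℝ)) (a : ι → ℝ)
    (h : ∀ ε : ℝ, 0 < ε → ∃ x ∈ P, x ≠ a ∧ ‖x - a‖ < ε ∧ f x = f a) :
    (P ∩ f ⁻¹' {f a}).Infinite := by
  intro hfin
  have h1 : ((P ∩ f ⁻¹' {f a}) \ {a}).Finite := hfin.subset sdiff_subset
  have h2 : IsOpen ((P ∩ f ⁻¹' {f a}) \ {a})ᶜ := h1.isClosed.isOpen_compl
  have h3 : a ∈ ((P ∩ f ⁻¹' {f a}) \ {a})ᶜ := by
    intro h4
    exact h4.2 rfl
  obtain ⟨ε, hε, hb⟩ := Metric.isOpen_iff.mp h2 a h3
  obtain ⟨x, hx, hxa, hn, hf⟩ := h ε hε
  have h5 : x ∈ ball a ε := by rw [mem_ball, dist_eq_norm]; exact hn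
  exact hb h5 ⟨⟨hx, hf⟩, hxa⟩

theorem inf_fiber {ι : Type} [Fintype ι] {n : ℕ} (f : (ι → ℝ) → (Fin n → ℝ)) (C : ℝ≥0) (hf : LipschitzWith C f)
    (P : Set (ι → ℝ)) (hP : IsCompact P) (hfin : μH[(n : ℝ)] P ≠ ∞) :
    volume (f '' {a | a ∈ P ∧ ∀ ε : ℝ, 0 < ε → ∃ x ∈ P, x ≠ a ∧ ‖x - a‖ < ε ∧ f x = f a}) = 0 := by
  classical
  set E : ℕ → (ι → ℤ) → Set (Fin n → ℝ) := fun m k =>
    toMeasurable volume (f '' (P ∩ qq316 m ⁻¹' {k})) with hE
  set g : ℕ → (Fin n → ℝ) → ℝ≥0∞ := fun m y => ∑' k, (E m k).indicator 1 y with hg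
  have hEm : ∀ m k, MeasurableSet (E m k) := fun m k => measurableSet_toMeasurable _ _
  have hgm : ∀ m, Measurable (g m) := fun m =>
    Measurable.tsum fun k => measurable_one.indicator (hEm m k)
  have hvol : (volume : Measure (Fin n → ℝ)) = μH[(n : ℝ)] := by
    rw [← hausdorffMeasure_pi_real, Fintype.card_fin]
  have hint : ∀ m, ∫⁻ y, g m y ≤ (C : ℝ≥0∞) ^ (n : ℝ) * μH[(n : ℝ)] P := by
    intro m
    rw [hg]
    simp only
    rw [lintegral_tsum (fun k => (measurable_one.indicator (hEm m k)).aemeasurable)]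
    have h1 : ∀ k, ∫⁻ y, (E m k).indicator 1 y ≤
        (C : ℝ≥0∞) ^ (n : ℝ) * μH[(n : ℝ)] (P ∩ qq316 m ⁻¹' {k}) := by
      intro k
      rw [lintegral_indicator_one (hEm m k), hE]
      simp only
      rw [measure_toMeasurable, hvol]
      exact hf.hausdorffMeasure_image_le (Nat.cast_nonneg n) _
    refine (ENNReal.tsum_le_tsum h1).trans ?_
    rw [ENNReal.tsum_mul_left]
    gcongr
    have h2 : ∑' k, μH[(n : ℝ)] (P ∩ qq316 m ⁻¹' {k}) =
        ∑' k, (μH[(n : ℝ)].restrict P) (qq316 m ⁻¹' {k} : Set (ι → ℝ)) := by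
      refine tsum_congr fun k => ?_
      rw [Measure.restrict_apply (qq316_meas m k), inter_comm]
    rw [h2, ← measure_iUnion]
    · calc (μH[(n : ℝ)].restrict P) (⋃ k, qq316 m ⁻¹' {k} : Set (ι → ℝ))
          ≤ (μH[(n : ℝ)].restrict P) Set.univ := measure_mono (subset_univ _)
        _ = μH[(n : ℝ)] P := Measure.restrict_apply_univ P
    · intro k k' hkk'
      exact Disjoint.preimage _ (by simpa using hkk')
    · exact fun k => qq316_meas m k
  have hfatou : ∫⁻ y, liminf (fun m => g m y) atTop ≤ (C : ℝ≥0∞) ^ (n : ℝ) * μH[(n : ℝ)] P := by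
    refine (lintegral_liminf_le hgm).trans ?_
    exact (liminf_le_liminf (Eventually.of_forall hint)).trans (liminf_const _).le
  have hlt : ∫⁻ y, liminf (fun m => g m y) atTop ≠ ∞ := by
    refine ne_top_of_le_ne_top ?_ hfatou
    exact ENNReal.mul_ne_top (ENNReal.rpow_ne_top_of_nonneg (Nat.cast_nonneg n)
      ENNReal.coe_ne_top) hfin
  have hae := ae_lt_top (Measurable.liminf hgm) hlt
  rw [ae_iff] at hae
  refine measure_mono_null ?_ hae
  rintro y ⟨a, ⟨haP, ha⟩, rfl⟩
  have hinf := infinite316 f P a ha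
  simp only [mem_ofPred_eq, not_lt, top_le_iff]
  refine ENNReal.eq_top_of_forall_nnreal_le ?_
  intro r
  obtain ⟨N, hN⟩ := exists_nat_gt r
  refine le_trans (b := (N : ℝ≥0∞)) (by exact_mod_cast hN.le) ?_
  obtain ⟨t, htsub, htc⟩ := hinf.exists_subset_card_eq N
  refine le_liminf_of_le (by isBoundedDefault) ?_
  have hsep : ∀ᶠ m : ℕ in atTop, ∀ x ∈ t, ∀ x' ∈ t, x ≠ x' → qq316 m x ≠ qq316 m x' := by
    rw [Filter.eventually_all_finset]
    intro x _
    rw [Filter.eventually_all_finset]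
    intro x' _
    by_cases hxx : x = x'
    · exact Eventually.of_forall fun m h => absurd hxx h
    · filter_upwards [qq316_sep hxx] with m hm _ using hm
  filter_upwards [hsep] with m hm
  have hinj : Set.InjOn (qq316 m) (t : Set (ι → ℝ)) := by
    intro x hx x' hx' he
    by_contra hne
    exact hm x hx x' hx' hne he
  have hcard : (t.image (qq316 m)).card = N := by
    rw [Finset.card_image_of_injOn hinj, htc]
  calc (N : ℝ≥0∞) = ∑ k ∈ t.image (qq316 m), 1 := by
        rw [Finset.sum_const, hcard, nsmul_eq_mul, mul_one]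
    _ ≤ ∑ k ∈ t.image (qq316 m), (E m k).indicator 1 (f a) := by
        refine Finset.sum_le_sum fun k hk => ?_
        rw [Finset.mem_image] at hk
        obtain ⟨x, hx, rfl⟩ := hk
        have h1 := htsub hx
        have h2 : f a ∈ E m (qq316 m x) := by
          apply subset_toMeasurable
          exact ⟨x, ⟨h1.1, rfl⟩, h1.2⟩
        rw [indicator_of_mem h2]
        simp
    _ ≤ g m (f a) := ENNReal.sum_le_tsum _

end Pool.Agent.Helper924_BF
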