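import Pool.Agent.Helper924_BF.AltAe
import Pool.Agent.Helper924_BF.ConeNull
import Pool.Agent.Helper924_BF.Dens
import Pool.Agent.Helper924_BF.Fiber

/-! helper924, MP_8115c2_gt, job BF10 FINAL: the Besicovitch-Federer projection theorem for compact sets.
PROOF IN WORDS. Let `μ = μH[n].restrict P` (finite). For `k : ℕ` let `δ_k = 1/(k+1)`. By `alt_ae` (given) for almost every `L` and every `k`, for
`μ`-almost every `a`, for all `j`: `Meet P δ_k a L ∨ ZeroAlt μ P δ_k a L j ∨ InfAlt μ P δ_k a L j`. Fix such an `L` and let `f = lin L`, which is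
Lipschitz, say `‖f x‖ ≤ c ‖x‖`, `c = ∑ j, ‖L j‖`. Every point `a` of `P` outside a `μH[n]`-null set `N` is of one of these kinds.
(i) For some `k`, `ZeroAlt μ P δ_k a L j` for all `j`. Every `x ∈ cone L a r s` lies in some `Zr a j` (the sup norm is attained), so
for all large `m` and all rational `0 < r < δ_k`, `μH[n] (P ∩ cone L a r (2^{-m})) ≤ ∑_j ε (r 2^{-m})^n ≤ lam (r 2^{-m})^n` with
`lam = 1/(4 (48 (c+1))^n)`. By `cone_null` (given; `s = 2^{-m}`, `δ = δ_k`) the set of these `a` is a countable union (over `k`, `m`) of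
`μH[n]`-null sets. (ii) For some `k`, `j`: `InfAlt μ P δ_k a L j`. Since `cone L a r s ⊆ f ⁻¹' (ball (f a) (r s))`, the image
`f a` satisfies the condition of `dens_null` (given) for the finite measure `ν = μ.map f` (radii `t = r 2^{-m} < δ_k 2^{-m}`). So the
image under `f` of the set of these `a` is `volume`-null. (iii) Otherwise `Meet P δ_k a L` for every `k`: by `inf_fiber` (given) the
image under `f` of the set of these `a` is `volume`-null (`f x - f a = lin L (x - a)`). Finally `volume (f '' Z) = 0` if `μH[n] Z = 0`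
(`LipschitzWith.hausdorffMeasure_image_le`, `hausdorffMeasure_pi_real`). -/
open MeasureTheory Metric Set Filter
open scoped ENNReal NNReal Topology

namespace Pool.Agent.Helper924_BF

theorem aux_vol_image {ι : Type} [Fintype ι] {n : ℕ} (f : (ι → ℝ) → (Fin n → ℝ)) (C : ℝ≥0)
    (hf : LipschitzWith C f) (Z : Set (ι → ℝ)) (hZ : μH[(n : ℝ)] Z = 0) : volume (f '' Z) = 0 := by
  have h1 := hf.hausdorffMeasure_image_le (d := (n : ℝ)) (Nat.cast_nonneg n) Z
  rw [hZ, mul_zero] at h1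
  have h2 : (μH[(n : ℝ)] : Measure (Fin n → ℝ)) = volume := by
    have h3 := hausdorffMeasure_pi_real (ι := Fin n)
    simpa using h3
  rw [h2] at h1
  exact le_antisymm h1 bot_le

theorem aux_lin_sub {ι : Type} [Fintype ι] {n : ℕ} (L : ι → Fin n → ℝ) (x y : ι → ℝ) :
    lin L (x - y) = lin L x - lin L y := by
  unfold lin
  rw [← Finset.sum_sub_distrib]
  apply Finset.sum_congr rfl
  intro j _
  rw [Pi.sub_apply, sub_smul]

theorem aux_lin_bound {ι : Type} [Fintype ι] {n : ℕ} (L : ι → Fin n → ℝ) (x : ι → ℝ) :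
    ‖lin L x‖ ≤ (∑ j, ‖L j‖) * ‖x‖ := by
  unfold lin
  refine (norm_sum_le _ _).trans ?_
  rw [Finset.sum_mul]
  apply Finset.sum_le_sum
  intro j _
  rw [norm_smul, mul_comm]
  exact mul_le_mul_of_nonneg_left (norm_le_pi_norm x j) (norm_nonneg _)

theorem aux_cone_sub {ι : Type} [Fintype ι] {n : ℕ} (L : ι → Fin n → ℝ) (a : ι → ℝ) (r s : ℝ)
    (hs : 0 < s) : cone L a r s ⊆ lin L ⁻¹' (ball (lin L a) (r * s)) := by
  rintro x ⟨h1, h2⟩
  rw [mem_preimage, mem_ball, dist_eq_norm, ← aux_lin_sub]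
  refine h2.trans_le ?_
  rw [mul_comm r s]
  exact mul_le_mul_of_nonneg_left h1.le hs.le

theorem aux_cone_cover {ι : Type} [Fintype ι] {n : ℕ} (L : ι → Fin n → ℝ) (a : ι → ℝ) (r s : ℝ)
    (x : ι → ℝ) (hs : 0 < s) (hx : x ∈ cone L a r s) : ∃ j, x ∈ Zr a j := by
  by_contra hcon
  push Not at hcon
  have h0 : 0 < ‖x - a‖ := by
    have h1 := (norm_nonneg _).trans_lt hx.2
    by_contra h
    have h2 : ‖x - a‖ = 0 := le_antisymm (not_lt.1 h) (norm_nonneg _)
    rw [h2, mul_zero] at h1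
    exact lt_irrefl _ h1
  have h1 : ‖x - a‖ < ‖x - a‖ := by
    rw [pi_norm_lt_iff h0]
    intro j
    refine lt_of_le_of_ne (norm_le_pi_norm (x - a) j) ?_
    intro h
    apply hcon j
    show |x j - a j| = ‖x - a‖
    rw [← h]
    rfl
  exact lt_irrefl _ h1

theorem besicovitch_federer {ι : Type} [Fintype ι] {n : ℕ} (hn : 0 < n) (P : Set (ι → ℝ)) (hP : IsCompact P)
    (hfin : μH[(n : ℝ)] P ≠ ∞) (hPU : PU n P) :
    ∀ᵐ L : ι → Fin n → ℝ, volume (lin L '' P) = 0 := by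
  have hPm : MeasurableSet P := hP.isClosed.measurableSet
  set μ : Measure (ι → ℝ) := (μH[(n : ℝ)]).restrict P with hμ
  haveI : IsFiniteMeasure μ := ⟨by
    rw [hμ, Measure.restrict_apply_univ]; exact lt_top_iff_ne_top.2 hfin⟩
  have hall : ∀ᵐ L : ι → Fin n → ℝ, ∀ k : ℕ, ∀ᵐ a ∂μ, ∀ j, Meet P (1 / ((k : ℝ) + 1)) a L ∨
      ZeroAlt μ P (1 / ((k : ℝ) + 1)) a L j ∨ InfAlt μ P (1 / ((k : ℝ) + 1)) a L j :=
    ae_all_iff.2 (fun k => alt_ae μ P hP (1 / ((k : ℝ) + 1)))
  filter_upwards [hall] with L hL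
  have hL' := ae_all_iff.2 hL
  set c : ℝ := ∑ j, ‖L j‖ with hc
  have hc0 : 0 ≤ c := Finset.sum_nonneg (fun j _ => norm_nonneg _)
  have hbd : ∀ x, ‖lin L x‖ ≤ c * ‖x‖ := aux_lin_bound L
  have hLip : LipschitzWith ⟨c, hc0⟩ (lin L) := by
    apply LipschitzWith.of_dist_le_mul
    intro x y
    rw [dist_eq_norm, dist_eq_norm, ← aux_lin_sub]
    exact hbd _
  have hδ : ∀ k : ℕ, 0 < 1 / ((k : ℝ) + 1) := fun k => by positivity
  -- the exceptional set
  set N : Set (ι → ℝ) := {a | ¬ ∀ k : ℕ, ∀ j, Meet P (1 / ((k : ℝ) + 1)) a L ∨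
      ZeroAlt μ P (1 / ((k : ℝ) + 1)) a L j ∨ InfAlt μ P (1 / ((k : ℝ) + 1)) a L j} with hN
  have hN0 : μH[(n : ℝ)] (N ∩ P) = 0 := by
    have h1 : μ N = 0 := ae_iff.1 hL'
    rw [hμ, Measure.restrict_apply' hPm] at h1
    exact h1
  set lam : ℝ := 1 / (4 * (48 * (c + 1)) ^ n) with hlam
  have hlam0 : 0 < lam := by positivity
  set Z1 : ℕ → ℕ → Set (ι → ℝ) := fun k m => {a | a ∈ P ∧ ∀ r : ℚ, 0 < (r : ℝ) →
    (r : ℝ) < 1 / ((k : ℝ) + 1) → μH[(n : ℝ)] (P ∩ cone L a r ((1 / 2) ^ m)) ≤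
      ENNReal.ofReal (lam * (r * (1 / 2) ^ m) ^ n)} with hZ1
  have hZ1n : ∀ k m, μH[(n : ℝ)] (Z1 k m) = 0 := by
    intro k m
    exact cone_null hn L c hc0 hbd P hPU hfin ((1 / 2) ^ m) (1 / ((k : ℝ) + 1)) (by positivity)
      (pow_le_one₀ (by norm_num) (by norm_num)) (hδ k)
  set Z2 : Set (ι → ℝ) := {a | ∃ k : ℕ, ∃ j, InfAlt μ P (1 / ((k : ℝ) + 1)) a L j} with hZ2
  set Z3 : Set (ι → ℝ) := {a | a ∈ P ∧ ∀ ε : ℝ, 0 < ε → ∃ x ∈ P, x ≠ a ∧ ‖x - a‖ < ε ∧
    lin L x = lin L a} with hZ3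
  have hcover : P ⊆ (N ∩ P) ∪ (⋃ k, ⋃ m, Z1 k m) ∪ Z2 ∪ Z3 := by
    intro a ha
    by_cases haN : a ∈ N
    · exact Or.inl (Or.inl (Or.inl ⟨haN, ha⟩))
    have haN' : ∀ k : ℕ, ∀ j, Meet P (1 / ((k : ℝ) + 1)) a L ∨
      ZeroAlt μ P (1 / ((k : ℝ) + 1)) a L j ∨ InfAlt μ P (1 / ((k : ℝ) + 1)) a L j := by
      by_contra h
      exact haN h
    by_cases hM : ∀ k : ℕ, Meet P (1 / ((k : ℝ) + 1)) a L
    · right
      refine ⟨ha, fun ε hε => ?_⟩
      obtain ⟨k, hk⟩ := exists_nat_one_div_lt hε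
      obtain ⟨x, hx, hxa, hxd, hx0⟩ := hM k
      refine ⟨x, hx, hxa, hxd.trans hk, ?_⟩
      rw [aux_lin_sub] at hx0
      exact sub_eq_zero.1 hx0
    · push Not at hM
      obtain ⟨k, hk⟩ := hM
      by_cases hI : ∃ j, InfAlt μ P (1 / ((k : ℝ) + 1)) a L j
      · left; right
        exact ⟨k, hI⟩
      · push Not at hI
        left; left; right
        have hZ : ∀ j, ZeroAlt μ P (1 / ((k : ℝ) + 1)) a L j := by
          intro j
          rcases haN' k j with h | h | h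
          · exact absurd h hk
          · exact h
          · exact absurd h (hI j)
        set ε : ℝ := lam / ((Fintype.card ι : ℝ) + 1) with hε
        have hε0 : 0 < ε := by positivity
        choose m₀ hm₀ using fun j => hZ j ε hε0
        refine mem_iUnion.2 ⟨k, mem_iUnion.2 ⟨Finset.univ.sup m₀, ha, ?_⟩⟩
        intro r hr0 hr1
        set m := Finset.univ.sup m₀ with hm
        have hs0 : (0 : ℝ) < (1 / 2) ^ m := by positivity
        have hsub : P ∩ cone L a r ((1 / 2) ^ m) ⊆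
            ⋃ j ∈ (Finset.univ : Finset ι), P ∩ Zr a j ∩ cone L a r ((1 / 2) ^ m) := by
          rintro x ⟨hxP, hxc⟩
          obtain ⟨j, hj⟩ := aux_cone_cover L a r _ x hs0 hxc
          exact mem_iUnion₂.2 ⟨j, Finset.mem_univ j, ⟨⟨hxP, hj⟩, hxc⟩⟩
        have hone : ∀ j, μH[(n : ℝ)] (P ∩ Zr a j ∩ cone L a r ((1 / 2) ^ m)) ≤
            ENNReal.ofReal (ε * (r * (1 / 2) ^ m) ^ n) := by
          intro j
          have h1 := hm₀ j m (Finset.le_sup (Finset.mem_univ j)) r hr0 hr1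
          rw [hμ, Measure.restrict_apply' hPm] at h1
          have h2 : (P ∩ Zr a j ∩ cone L a r ((1 / 2) ^ m)) ∩ P =
              P ∩ Zr a j ∩ cone L a r ((1 / 2) ^ m) := by
            ext x
            constructor
            · exact fun h => h.1
            · exact fun h => ⟨h, h.1.1⟩
          rw [h2] at h1
          exact h1
        calc μH[(n : ℝ)] (P ∩ cone L a r ((1 / 2) ^ m))
            ≤ μH[(n : ℝ)] (⋃ j ∈ (Finset.univ : Finset ι), P ∩ Zr a j ∩ cone L a r ((1 / 2) ^ m)) :=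
              measure_mono hsub
          _ ≤ ∑ j : ι, μH[(n : ℝ)] (P ∩ Zr a j ∩ cone L a r ((1 / 2) ^ m)) :=
              measure_biUnion_finset_le _ _
          _ ≤ ∑ _j : ι, ENNReal.ofReal (ε * (r * (1 / 2) ^ m) ^ n) :=
              Finset.sum_le_sum (fun j _ => hone j)
          _ = ENNReal.ofReal ((Fintype.card ι : ℝ) * (ε * (r * (1 / 2) ^ m) ^ n)) := by
              rw [Finset.sum_const, Finset.card_univ, nsmul_eq_mul,
                ENNReal.ofReal_mul (Nat.cast_nonneg _), ENNReal.ofReal_natCast]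
          _ ≤ ENNReal.ofReal (lam * (r * (1 / 2) ^ m) ^ n) := by
              apply ENNReal.ofReal_le_ofReal
              rw [← mul_assoc]
              apply mul_le_mul_of_nonneg_right _ (by positivity)
              rw [hε, mul_div_assoc', div_le_iff₀ (by positivity)]
              nlinarith [hlam0]
  have hv0 : volume (lin L '' (N ∩ P)) = 0 := aux_vol_image _ _ hLip _ hN0
  have hv1 : volume (lin L '' (⋃ k, ⋃ m, Z1 k m)) = 0 := by
    apply aux_vol_image _ _ hLip
    rw [measure_iUnion_null_iff]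
    intro k
    rw [measure_iUnion_null_iff]
    exact hZ1n k
  have hv2 : volume (lin L '' Z2) = 0 := by
    have hfm : Measurable (lin L) := hLip.continuous.measurable
    haveI : IsFiniteMeasure (μ.map (lin L)) := Measure.isFiniteMeasure_map μ (lin L)
    refine measure_mono_null ?_ (dens_null (μ.map (lin L)))
    rintro y ⟨a, ⟨k, j, hI⟩, rfl⟩
    intro K ε hε
    obtain ⟨m₀, hm₀⟩ := exists_pow_lt_of_lt_one hε (by norm_num : (1 / 2 : ℝ) < 1)
    obtain ⟨m, hm, r, hr0, hr1, hlt⟩ := hI K m₀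
    have hs0 : (0 : ℝ) < (1 / 2) ^ m := by positivity
    refine ⟨r * (1 / 2) ^ m, by positivity, ?_, ?_⟩
    · have h1 : (1 / 2 : ℝ) ^ m ≤ (1 / 2) ^ m₀ :=
        pow_le_pow_of_le_one (by norm_num) (by norm_num) hm
      have h2 : (r : ℝ) ≤ 1 := by
        refine hr1.le.trans ?_
        rw [div_le_iff₀ (by positivity)]
        have : (0 : ℝ) ≤ k := Nat.cast_nonneg k
        linarith
      calc (r : ℝ) * (1 / 2) ^ m ≤ 1 * (1 / 2) ^ m := mul_le_mul_of_nonneg_right h2 hs0.le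
        _ = (1 / 2) ^ m := one_mul _
        _ ≤ (1 / 2) ^ m₀ := h1
        _ < ε := hm₀
    · refine hlt.trans_le ?_
      rw [Measure.map_apply hfm measurableSet_ball]
      apply measure_mono
      exact fun x hx => aux_cone_sub L a r _ hs0 hx.2
  have hv3 : volume (lin L '' Z3) = 0 := inf_fiber (lin L) _ hLip P hP hfin
  refine measure_mono_null (image_mono hcover) ?_
  rw [image_union, image_union, image_union]
  exact measure_union_null (measure_union_null (measure_union_null hv0 hv1) hv2) hv3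

end Pool.Agent.Helper924_BF
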