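import Pool.Agent.Helper924_BF.Dich

/-! helper924, MP_8115c2_gt, job BF7 COLUMN (towards the Besicovitch-Federer projection theorem).
PROOF IN WORDS. Put `β x = -(x j - a j)⁻¹ • lin L₀ (x - a)` (a measurable map), `R = {r : ℚ // 0 < (r:ℝ) ∧ (r:ℝ) < δ}`,
`ν r = ENNReal.ofReal ((r^n)⁻¹) • Measure.map β (μ.restrict (P ∩ Zr a j ∩ ball a r ∩ {a}ᶜ))` and
`E = β '' (P ∩ Zr a j ∩ {x | x ≠ a ∧ ‖x - a‖ < δ})`. `E` is sigma-compact, hence Borel: the set on which `β` acts is the union over `k` of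
the compact sets `P ∩ Zr a j ∩ {x | 1/(k+1) ≤ ‖x - a‖ ≤ δ - 1/(k+1)}`, on which `β` is continuous (there `|x j - a j| = ‖x - a‖ > 0`).
`ν r Eᶜ = 0` by construction. For `L = L₀ + Pi.single j b`: `lin L (x - a) = lin L₀ (x - a) + (x j - a j) • b`, so for `x ∈ Zr a j`, `x ≠ a`:
`‖lin L (x - a)‖ = |x j - a j| ‖b - β x‖ = ‖x - a‖ ‖b - β x‖`. Hence
`P ∩ Zr a j ∩ cone L a r s = (P ∩ Zr a j ∩ ball a r ∩ {a}ᶜ) ∩ β ⁻¹' (ball b s)` and `ν r (ball b s) = ofReal ((r^n)⁻¹) * μ (P ∩ Zr a j ∩ cone L a r s)`.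
If `b ∈ E` then `b = β x` with `x ∈ P`, `x ≠ a`, `‖x - a‖ < δ` and `lin L (x - a) = 0`: `Meet`. The other two alternatives of `dichotomy`
(given) are `ZeroAlt` and `InfAlt` after multiplication by `r^n`. -/
open MeasureTheory Metric Set Filter
open scoped ENNReal NNReal Topology

namespace Pool.Agent.Helper924_BF

/-- the quotient map of the column argument -/
noncomputable def colB {ι : Type} [Fintype ι] {n : ℕ} (L₀ : ι → Fin n → ℝ) (a : ι → ℝ) (j : ι)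
    (x : ι → ℝ) : Fin n → ℝ := -(x j - a j)⁻¹ • lin L₀ (x - a)

theorem col_lin_continuous {ι : Type} [Fintype ι] {n : ℕ} (L : ι → Fin n → ℝ) :
    Continuous (lin L) := by
  unfold lin
  fun_prop

theorem col_lin_single {ι : Type} [Fintype ι] [DecidableEq ι] {n : ℕ} (L₀ : ι → Fin n → ℝ) (j : ι)
    (b : Fin n → ℝ) (y : ι → ℝ) : lin (L₀ + Pi.single j b) y = lin L₀ y + y j • b := by
  unfold lin
  simp only [Pi.add_apply, smul_add, Finset.sum_add_distrib]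
  congr 1
  rw [Finset.sum_eq_single j]
  · rw [Pi.single_eq_same]
  · intro k _ hk
    rw [Pi.single_eq_of_ne hk, smul_zero]
  · intro h
    exact absurd (Finset.mem_univ j) h

theorem col_lin_eq {ι : Type} [Fintype ι] [DecidableEq ι] {n : ℕ} (L₀ : ι → Fin n → ℝ) (a : ι → ℝ)
    (j : ι) (b : Fin n → ℝ) (x : ι → ℝ) (hx : x j - a j ≠ 0) :
    lin (L₀ + Pi.single j b) (x - a) = (x j - a j) • (b - colB L₀ a j x) := by
  rw [col_lin_single, colB, smul_sub, neg_smul, smul_neg, smul_smul, mul_inv_cancel₀ hx, one_smul,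
    sub_neg_eq_add, add_comm, Pi.sub_apply]

theorem col_ne {ι : Type} [Fintype ι] {a : ι → ℝ} {j : ι} {x : ι → ℝ} (hx : x ∈ Zr a j)
    (hxa : x ≠ a) : x j - a j ≠ 0 := by
  intro h
  have h1 : |x j - a j| = ‖x - a‖ := hx
  rw [h, abs_zero] at h1
  exact hxa (sub_eq_zero.mp (norm_eq_zero.mp h1.symm))

theorem col_Zr_closed {ι : Type} [Fintype ι] (a : ι → ℝ) (j : ι) : IsClosed (Zr a j) := by
  unfold Zr
  exact isClosed_eq (by fun_prop) (by fun_prop)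

theorem col_cone {ι : Type} [Fintype ι] [DecidableEq ι] {n : ℕ} (P : Set (ι → ℝ)) (a : ι → ℝ)
    (j : ι) (L₀ : ι → Fin n → ℝ) (b : Fin n → ℝ) (r s : ℝ) :
    P ∩ Zr a j ∩ cone (L₀ + Pi.single j b) a r s =
      colB L₀ a j ⁻¹' (ball b s) ∩ (P ∩ Zr a j ∩ ball a r ∩ {a}ᶜ) := by
  ext x
  constructor
  · rintro ⟨⟨hP, hZ⟩, hr, hs⟩
    have hxa : x ≠ a := by
      rintro rfl
      rw [sub_self, norm_zero, mul_zero] at hs
      exact absurd hs (not_lt.mpr (norm_nonneg _))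
    refine ⟨?_, ⟨⟨hP, hZ⟩, ?_⟩, hxa⟩
    · rw [col_lin_eq L₀ a j b x (col_ne hZ hxa), norm_smul, Real.norm_eq_abs] at hs
      have hZ' : |x j - a j| = ‖x - a‖ := hZ
      rw [hZ', mul_comm s] at hs
      have hpos : 0 < ‖x - a‖ := norm_pos_iff.mpr (sub_ne_zero.mpr hxa)
      have h1 := lt_of_mul_lt_mul_left hs hpos.le
      show dist (colB L₀ a j x) b < s
      rw [dist_comm, dist_eq_norm]
      exact h1
    · show dist x a < r
      rw [dist_eq_norm]; exact hr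
  · rintro ⟨hb, ⟨⟨hP, hZ⟩, hr⟩, hxa⟩
    have hxa' : x ≠ a := hxa
    have g1 : ‖x - a‖ < r := by
      have : dist x a < r := hr
      rwa [dist_eq_norm] at this
    have hZ' : |x j - a j| = ‖x - a‖ := hZ
    have hpos : 0 < ‖x - a‖ := norm_pos_iff.mpr (sub_ne_zero.mpr hxa')
    have hb' : ‖b - colB L₀ a j x‖ < s := by
      have : dist (colB L₀ a j x) b < s := hb
      rwa [dist_comm, dist_eq_norm] at this
    have g3 := col_lin_eq L₀ a j b x (col_ne hZ hxa')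
    have g4 : ‖lin (L₀ + Pi.single j b) (x - a)‖ = ‖x - a‖ * ‖b - colB L₀ a j x‖ := by
      rw [g3, norm_smul, Real.norm_eq_abs, hZ']
    have g2 : ‖lin (L₀ + Pi.single j b) (x - a)‖ < s * ‖x - a‖ := by
      rw [g4, mul_comm s]
      exact mul_lt_mul_of_pos_left hb' hpos
    exact ⟨⟨hP, hZ⟩, g1, g2⟩

theorem col_measurable {ι : Type} [Fintype ι] {n : ℕ} (L₀ : ι → Fin n → ℝ) (a : ι → ℝ) (j : ι) :
    Measurable (colB L₀ a j) := by
  unfold colB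
  have h1 : Measurable fun x : ι → ℝ => lin L₀ (x - a) :=
    ((col_lin_continuous L₀).comp (by fun_prop)).measurable
  have h2 : Measurable fun x : ι → ℝ => -(x j - a j)⁻¹ := by
    have : Measurable fun x : ι → ℝ => x j := measurable_pi_apply j
    exact (this.sub_const _).inv.neg
  exact h2.smul h1

/-- the set of bad columns is Borel -/
theorem col_E {ι : Type} [Fintype ι] {n : ℕ} (P : Set (ι → ℝ)) (hP : IsCompact P)
    (δ : ℝ) (a : ι → ℝ) (j : ι) (L₀ : ι → Fin n → ℝ) :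
    MeasurableSet (colB L₀ a j '' (P ∩ Zr a j ∩ {x | x ≠ a ∧ ‖x - a‖ < δ})) := by
  have hU : P ∩ Zr a j ∩ {x | x ≠ a ∧ ‖x - a‖ < δ} =
      ⋃ k : ℕ, (P ∩ (Zr a j ∩ {x | 1 / ((k : ℝ) + 1) ≤ ‖x - a‖ ∧
        ‖x - a‖ ≤ δ - 1 / ((k : ℝ) + 1)})) := by
    ext x
    simp only [Set.mem_iUnion, Set.mem_inter_iff]
    constructor
    · rintro ⟨⟨h1, h2⟩, h3, h4⟩
      have hpos : 0 < ‖x - a‖ := norm_pos_iff.mpr (sub_ne_zero.mpr h3)
      have hpos' : 0 < δ - ‖x - a‖ := sub_pos.mpr h4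
      obtain ⟨k, hk⟩ := exists_nat_one_div_lt (lt_min hpos hpos')
      have h5 := hk.le.trans (min_le_left _ _)
      have h6 := hk.le.trans (min_le_right _ _)
      exact ⟨k, h1, h2, h5, by linarith⟩
    · rintro ⟨k, h1, h2, h3, h4⟩
      have hk : (0 : ℝ) < 1 / ((k : ℝ) + 1) := by positivity
      refine ⟨⟨h1, h2⟩, ?_, ?_⟩
      · rintro rfl
        rw [sub_self, norm_zero] at h3
        linarith
      · show ‖x - a‖ < δ
        linarith
  rw [hU, Set.image_iUnion]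
  refine MeasurableSet.iUnion fun k => ?_
  have hk : (0 : ℝ) < 1 / ((k : ℝ) + 1) := by positivity
  have hcl : IsClosed (Zr a j ∩ {x : ι → ℝ | 1 / ((k : ℝ) + 1) ≤ ‖x - a‖ ∧
        ‖x - a‖ ≤ δ - 1 / ((k : ℝ) + 1)}) := by
    refine (col_Zr_closed a j).inter ?_
    have c1 : IsClosed {x : ι → ℝ | 1 / ((k : ℝ) + 1) ≤ ‖x - a‖} :=
      isClosed_le (by fun_prop) (by fun_prop)
    have c2 : IsClosed {x : ι → ℝ | ‖x - a‖ ≤ δ - 1 / ((k : ℝ) + 1)} :=
      isClosed_le (by fun_prop) (by fun_prop)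
    exact c1.inter c2
  refine IsCompact.measurableSet ((hP.inter_right hcl).image_of_continuousOn ?_)
  have e1 : ContinuousOn (fun x : ι → ℝ => x j - a j) (P ∩ (Zr a j ∩ {x : ι → ℝ |
      1 / ((k : ℝ) + 1) ≤ ‖x - a‖ ∧ ‖x - a‖ ≤ δ - 1 / ((k : ℝ) + 1)})) :=
    (by fun_prop : Continuous (fun x : ι → ℝ => x j - a j)).continuousOn
  have e2 : Continuous (fun x : ι → ℝ => lin L₀ (x - a)) :=
    (col_lin_continuous L₀).comp (by fun_prop)
  refine ContinuousOn.smul (ContinuousOn.neg (ContinuousOn.inv₀ e1 ?_)) e2.continuousOn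
  rintro x ⟨h1, h2, h3, h4⟩
  refine col_ne h2 ?_
  rintro rfl
  rw [sub_self, norm_zero] at h3
  linarith

theorem column {ι : Type} [Fintype ι] [DecidableEq ι] {n : ℕ} (μ : Measure (ι → ℝ)) (P : Set (ι → ℝ)) (hP : IsCompact P)
    (δ : ℝ) (a : ι → ℝ) (j : ι) (L₀ : ι → Fin n → ℝ) :
    ∀ᵐ b : Fin n → ℝ, Meet P δ a (L₀ + Pi.single j b) ∨ ZeroAlt μ P δ a (L₀ + Pi.single j b) j ∨
      InfAlt μ P δ a (L₀ + Pi.single j b) j := by
  classical
  set β := colB L₀ a j with hβ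
  have hβm : Measurable β := col_measurable L₀ a j
  set E := β '' (P ∩ Zr a j ∩ {x | x ≠ a ∧ ‖x - a‖ < δ}) with hE
  let S : {r : ℚ // 0 < (r : ℝ) ∧ (r : ℝ) < δ} → Set (ι → ℝ) := fun r =>
    P ∩ Zr a j ∩ ball a (r.1 : ℝ) ∩ {a}ᶜ
  have hSm : ∀ r, MeasurableSet (S r) := fun r =>
    ((hP.measurableSet.inter (col_Zr_closed a j).measurableSet).inter measurableSet_ball).inter
      (MeasurableSet.compl (measurableSet_singleton a))
  let ν : {r : ℚ // 0 < (r : ℝ) ∧ (r : ℝ) < δ} → Measure (Fin n → ℝ) := fun r =>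
    ENNReal.ofReal (((r.1 : ℝ) ^ n)⁻¹) • Measure.map β (μ.restrict (S r))
  have hEm : MeasurableSet E := col_E P hP δ a j L₀
  have hνE : ∀ r, ν r Eᶜ = 0 := by
    intro r
    show (ENNReal.ofReal (((r.1 : ℝ) ^ n)⁻¹) • Measure.map β (μ.restrict (S r))) Eᶜ = 0
    rw [Measure.smul_apply, Measure.map_apply hβm hEm.compl,
      Measure.restrict_apply (hβm hEm.compl)]
    have : β ⁻¹' Eᶜ ∩ S r = ∅ := by
      rw [Set.eq_empty_iff_forall_notMem]
      rintro x ⟨h1, ⟨⟨h2, h3⟩, h4⟩, h5⟩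
      refine h1 ⟨x, ⟨⟨h2, h3⟩, h5, ?_⟩, rfl⟩
      have h6 : dist x a < (r.1 : ℝ) := h4
      rw [dist_eq_norm] at h6
      exact h6.trans r.2.2
    rw [this, measure_empty, smul_zero]
  have hball : ∀ (r : {r : ℚ // 0 < (r : ℝ) ∧ (r : ℝ) < δ}) (b : Fin n → ℝ) (s : ℝ),
      ν r (ball b s) = ENNReal.ofReal (((r.1 : ℝ) ^ n)⁻¹) *
        μ (P ∩ Zr a j ∩ cone (L₀ + Pi.single j b) a (r.1 : ℝ) s) := by
    intro r b s
    show (ENNReal.ofReal (((r.1 : ℝ) ^ n)⁻¹) • Measure.map β (μ.restrict (S r))) (ball b s) = _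
    rw [Measure.smul_apply, Measure.map_apply hβm measurableSet_ball,
      Measure.restrict_apply (hβm measurableSet_ball), smul_eq_mul, col_cone]
  filter_upwards [dichotomy ν E hEm hνE] with b hb
  rcases hb with hb | hb | hb
  · left
    obtain ⟨x, ⟨⟨h1, h2⟩, h3, h4⟩, h5⟩ := hb
    refine ⟨x, h1, h3, h4, ?_⟩
    rw [col_lin_eq L₀ a j b x (col_ne h2 h3), ← hβ, h5, sub_self, smul_zero]
  · right; left
    intro ε hε
    obtain ⟨m₀, hm₀⟩ := hb ε hε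
    refine ⟨m₀, fun m hm r hr0 hrδ => ?_⟩
    have h1 := hm₀ m hm ⟨r, hr0, hrδ⟩
    rw [hball] at h1
    have hrn : (0 : ℝ) < (r : ℝ) ^ n := pow_pos hr0 n
    have h2 : ENNReal.ofReal ((r : ℝ) ^ n) * ENNReal.ofReal (((r : ℝ) ^ n)⁻¹) = 1 := by
      rw [← ENNReal.ofReal_mul hrn.le, mul_inv_cancel₀ hrn.ne', ENNReal.ofReal_one]
    calc μ (P ∩ Zr a j ∩ cone (L₀ + Pi.single j b) a r ((1 / 2) ^ m))
        = ENNReal.ofReal ((r : ℝ) ^ n) * (ENNReal.ofReal (((r : ℝ) ^ n)⁻¹) *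
          μ (P ∩ Zr a j ∩ cone (L₀ + Pi.single j b) a r ((1 / 2) ^ m))) := by
          rw [← mul_assoc, h2, one_mul]
      _ ≤ ENNReal.ofReal ((r : ℝ) ^ n) * ENNReal.ofReal (ε * ((1 / 2) ^ m) ^ n) := by
          gcongr
      _ = ENNReal.ofReal (ε * (r * (1 / 2) ^ m) ^ n) := by
          rw [← ENNReal.ofReal_mul hrn.le]
          congr 1
          rw [mul_pow]; ring
  · right; right
    intro K m₀
    obtain ⟨m, hm, r, hr⟩ := hb K m₀
    refine ⟨m, hm, r.1, r.2.1, r.2.2, ?_⟩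
    rw [hball] at hr
    by_contra hcon
    rw [not_lt] at hcon
    have hrn : (0 : ℝ) < (r.1 : ℝ) ^ n := pow_pos r.2.1 n
    have h3 : ENNReal.ofReal (((r.1 : ℝ) ^ n)⁻¹) *
        μ (P ∩ Zr a j ∩ cone (L₀ + Pi.single j b) a (r.1 : ℝ) ((1 / 2) ^ m)) ≤
        ENNReal.ofReal (K * ((1 / 2) ^ m) ^ n) := by
      calc ENNReal.ofReal (((r.1 : ℝ) ^ n)⁻¹) *
            μ (P ∩ Zr a j ∩ cone (L₀ + Pi.single j b) a (r.1 : ℝ) ((1 / 2) ^ m))
          ≤ ENNReal.ofReal (((r.1 : ℝ) ^ n)⁻¹) *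
            ENNReal.ofReal (K * ((r.1 : ℝ) * (1 / 2) ^ m) ^ n) := by gcongr
        _ = ENNReal.ofReal (K * ((1 / 2) ^ m) ^ n) := by
          rw [← ENNReal.ofReal_mul (inv_nonneg.mpr hrn.le)]
          congr 1
          rw [mul_pow]
          field_simp
    exact absurd hr (not_lt.mpr h3)

end Pool.Agent.Helper924_BF
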