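import Pool.Agent.Helper924_BF.Defs

/-! helper924, MP_8115c2_gt, job BF1 CONE (towards the Besicovitch-Federer projection theorem; Mattila's book, Lemma 15.14).
PROOF IN WORDS. All norms are sup norms, `volume (closedBall y t) = (2 t)^n` in `Fin n → ℝ` (`Real.volume_pi_closedBall`).
For `a ∈ A` let `h a` be the supremum of `‖y - a‖` over `y ∈ A` with `‖lin L (y - a)‖ < (s/4) ‖y - a‖` (`0` if there is none; `h a ≤ ρ`).
Let `A0` be the set of `a ∈ A` with `h a = 0`. For `a, y ∈ A0` one has `‖y - a‖ ≤ (4/s) ‖lin L y - lin L a‖`, so `A0` is the image of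
`lin L '' A0` under a `4/s`-Lipschitz map and `μH[n] A0 = 0` by `PU` (as `A0 ⊆ P`).
For `a ∈ A \ A0` pick `y_a ∈ A` with `‖y_a - a‖ ≥ (3/4) h a` and `‖lin L (y_a - a)‖ < (s/4) ‖y_a - a‖ ≤ (s/4) h a`. Put
`C_a = {x | ‖lin L (x - a)‖ < (s/4) h a}`. Claim: `A ∩ C_a ⊆ cone L a (2 h a) s ∪ cone L y_a (2 h a) s`. Let `x ∈ A ∩ C_a`.
If `‖x - a‖ > h a` then by definition of `h a`, `‖lin L (x - a)‖ ≥ (s/4) ‖x - a‖ > (s/4) h a`, impossible; so `‖x - a‖ ≤ h a`.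
If `‖x - a‖ ≥ h a / 4`, then `‖lin L (x-a)‖ < (s/4) h a ≤ s ‖x - a‖`, so `x ∈ cone L a (2 h a) s`. Otherwise
`‖x - y_a‖ ≥ (3/4) h a - h a/4 = h a / 2` and `‖lin L (x - y_a)‖ < (s/4) h a + (s/4) h a ≤ s ‖x - y_a‖`, and
`‖x - y_a‖ < h a / 4 + h a < 2 h a`. So `μH[n] (A ∩ C_a) ≤ 2 lam (2 h a s)^n` by `H` (note `2 h a ≤ 2 ρ < δ`, `A ⊆ P`).
By Vitali's covering lemma (`Vitali.exists_disjoint_subfamily_covering_enlargement_closedBall` with `t = A \ A0`, centres `lin L a`,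
radii `r a = (s/24) h a ≤ ρ`, `τ = 5`) there is `u ⊆ A \ A0` with disjoint balls `closedBall (lin L a) (r a)`, `a ∈ u` (so `u` is
countable) such that every `lin L x`, `x ∈ A \ A0`, lies in some `closedBall (lin L a) (5 r a)`, `a ∈ u`, hence `x ∈ C_a`. The disjoint
balls lie in one ball of radius `(c + 1) ρ`, so `∑ (2 r a)^n ≤ (2 (c+1) ρ)^n`, and
`μH[n] A ≤ ∑ 2 lam (2 h a s)^n = 2 lam ∑ (48 r a)^n ≤ 2 lam (48 (c+1) ρ)^n`. -/
open MeasureTheory Metric Set Filter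
open scoped ENNReal NNReal Topology

namespace Pool.Agent.Helper924_BF

theorem j3482_lin_sub {ι : Type} [Fintype ι] {n : ℕ} (L : ι → Fin n → ℝ) (x y : ι → ℝ) :
    lin L (x - y) = lin L x - lin L y := by
  unfold lin
  rw [← Finset.sum_sub_distrib]
  apply Finset.sum_congr rfl
  intro j _
  rw [Pi.sub_apply, sub_smul]

/-- the points without partner form a null set -/
theorem j3482_null {ι : Type} [Fintype ι] {n : ℕ} (L : ι → Fin n → ℝ)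
    (P : Set (ι → ℝ)) (hP : PU n P) (A0 : Set (ι → ℝ)) (hA : A0 ⊆ P) (s : ℝ) (hs : 0 < s)
    (h0 : ∀ a ∈ A0, ∀ y ∈ A0, s / 4 * ‖y - a‖ ≤ ‖lin L (y - a)‖) :
    μH[(n : ℝ)] A0 = 0 := by
  classical
  have hinj : ∀ a ∈ A0, ∀ y ∈ A0, lin L y = lin L a → y = a := by
    intro a ha y hy he
    have h1 := h0 a ha y hy
    rw [j3482_lin_sub, he, sub_self, norm_zero] at h1
    have h2 : ‖y - a‖ = 0 := by
      have h3 : 0 ≤ ‖y - a‖ := norm_nonneg _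
      have h4 : 0 < s / 4 := by positivity
      nlinarith
    exact sub_eq_zero.1 (norm_eq_zero.1 h2)
  rcases A0.eq_empty_or_nonempty with hE | ⟨w0, hw0⟩
  · rw [hE]; simp
  have hex : ∀ z ∈ (lin L) '' A0, ∃ a, a ∈ A0 ∧ lin L a = z := fun z hz => hz
  choose! φ hφ1 hφ2 using hex
  have hK : (0 : ℝ) ≤ 4 / s := by positivity
  have hLip : LipschitzOnWith (Real.toNNReal (4 / s)) φ ((lin L) '' A0) := by
    apply LipschitzOnWith.of_dist_le_mul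
    intro z hz w hw
    have h1 := h0 (φ w) (hφ1 w hw) (φ z) (hφ1 z hz)
    rw [j3482_lin_sub, hφ2 z hz, hφ2 w hw] at h1
    rw [dist_eq_norm, dist_eq_norm, Real.coe_toNNReal _ hK, div_mul_eq_mul_div, le_div_iff₀ hs]
    linarith
  have h3 := hP ((lin L) '' A0) φ (Real.toNNReal (4 / s)) hLip
  refine measure_mono_null ?_ h3
  intro a ha
  refine ⟨hA ha, lin L a, ⟨a, ha, rfl⟩, ?_⟩
  have h4 : lin L a ∈ (lin L) '' A0 := ⟨a, ha, rfl⟩
  exact hinj a ha _ (hφ1 _ h4) (hφ2 _ h4)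

/-- selection of the extremal partner -/
theorem j3482_sel {ι : Type} [Fintype ι] {n : ℕ} (L : ι → Fin n → ℝ) (A : Set (ι → ℝ)) (s ρ : ℝ) (hs : 0 < s)
    (hdiam : ∀ x ∈ A, ∀ y ∈ A, ‖x - y‖ ≤ ρ) (a : ι → ℝ) (ha : a ∈ A)
    (hex : ∃ y ∈ A, ‖lin L (y - a)‖ < s / 4 * ‖y - a‖) :
    ∃ (h : ℝ) (y : ι → ℝ), 0 < h ∧ h ≤ ρ ∧ y ∈ A ∧ ‖lin L (y - a)‖ < s / 4 * ‖y - a‖ ∧ 3 / 4 * h ≤ ‖y - a‖ ∧
      ‖y - a‖ ≤ h ∧ ∀ x ∈ A, ‖lin L (x - a)‖ < s / 4 * ‖x - a‖ → ‖x - a‖ ≤ h := by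
  set S : Set ℝ := {t | ∃ y ∈ A, ‖lin L (y - a)‖ < s / 4 * ‖y - a‖ ∧ t = ‖y - a‖} with hS
  have hb : ∀ t ∈ S, t ≤ ρ := by
    rintro t ⟨y, hy, _, rfl⟩
    exact hdiam y hy a ha
  have hbdd : BddAbove S := ⟨ρ, hb⟩
  obtain ⟨y0, hy0, hy0'⟩ := hex
  have hmem : ‖y0 - a‖ ∈ S := ⟨y0, hy0, hy0', rfl⟩
  have hpos0 : 0 < ‖y0 - a‖ := by
    have h1 : 0 ≤ ‖lin L (y0 - a)‖ := norm_nonneg _
    have h2 : 0 < s / 4 * ‖y0 - a‖ := lt_of_le_of_lt h1 hy0'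
    have h3 : 0 < s / 4 := by positivity
    exact pos_of_mul_pos_right h2 h3.le
  have hpos : 0 < sSup S := lt_of_lt_of_le hpos0 (le_csSup hbdd hmem)
  obtain ⟨t, ⟨y, hy, hy', rfl⟩, hlt⟩ := exists_lt_of_lt_csSup (s := S) ⟨_, hmem⟩
    (show 3 / 4 * sSup S < sSup S by linarith)
  exact ⟨sSup S, y, hpos, csSup_le ⟨_, hmem⟩ hb, hy, hy', hlt.le, le_csSup hbdd ⟨y, hy, hy', rfl⟩,
    fun x hx hx' => le_csSup hbdd ⟨x, hx, hx', rfl⟩⟩

/-- the two cones cover -/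
theorem j3482_cover {ι : Type} [Fintype ι] {n : ℕ} (L : ι → Fin n → ℝ) (A : Set (ι → ℝ)) (s : ℝ) (hs : 0 < s)
    (a y : ι → ℝ) (h : ℝ) (hh : 0 < h) (hy1 : ‖lin L (y - a)‖ < s / 4 * ‖y - a‖) (hy2 : 3 / 4 * h ≤ ‖y - a‖)
    (hy3 : ‖y - a‖ ≤ h) (hmax : ∀ x ∈ A, ‖lin L (x - a)‖ < s / 4 * ‖x - a‖ → ‖x - a‖ ≤ h)
    (x : ι → ℝ) (hx : x ∈ A) (hxC : ‖lin L (x - a)‖ < s / 4 * h) :
    x ∈ cone L a (2 * h) s ∪ cone L y (2 * h) s := by
  have hxa : ‖x - a‖ ≤ h := by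
    by_contra hcon
    push Not at hcon
    have h1 : ¬ ‖lin L (x - a)‖ < s / 4 * ‖x - a‖ := fun h2 => by
      have := hmax x hx h2
      linarith
    push Not at h1
    have h3 : s / 4 * h < s / 4 * ‖x - a‖ := by
      apply mul_lt_mul_of_pos_left hcon (by positivity)
    linarith
  by_cases hc : h / 4 ≤ ‖x - a‖
  · left
    refine ⟨by linarith, ?_⟩
    have h1 : s * (h / 4) ≤ s * ‖x - a‖ := mul_le_mul_of_nonneg_left hc hs.le
    linarith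
  · right
    push Not at hc
    have e1 : y - a = (x - a) - (x - y) := by abel
    have h1 : ‖y - a‖ ≤ ‖x - a‖ + ‖x - y‖ := by
      calc ‖y - a‖ = ‖(x - a) - (x - y)‖ := by rw [← e1]
        _ ≤ ‖x - a‖ + ‖x - y‖ := norm_sub_le _ _
    have h2 : h / 2 ≤ ‖x - y‖ := by linarith
    have e2 : x - y = (x - a) - (y - a) := by abel
    have h3 : ‖x - y‖ ≤ ‖x - a‖ + ‖y - a‖ := by
      calc ‖x - y‖ = ‖(x - a) - (y - a)‖ := by rw [← e2]
        _ ≤ ‖x - a‖ + ‖y - a‖ := norm_sub_le _ _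
    have h4 : ‖lin L (x - y)‖ ≤ ‖lin L (x - a)‖ + ‖lin L (y - a)‖ := by
      calc ‖lin L (x - y)‖ = ‖lin L (x - a) - lin L (y - a)‖ := by rw [e2, j3482_lin_sub]
        _ ≤ _ := norm_sub_le _ _
    have h5 : s / 4 * ‖y - a‖ ≤ s / 4 * h := mul_le_mul_of_nonneg_left hy3 (by positivity)
    have h6 : s * (h / 2) ≤ s * ‖x - y‖ := mul_le_mul_of_nonneg_left h2 hs.le
    exact ⟨by linarith, by linarith⟩

theorem cone_lemma {ι : Type} [Fintype ι] {n : ℕ} (hn : 0 < n) (L : ι → Fin n → ℝ) (c : ℝ) (hc0 : 0 ≤ c)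
    (hc : ∀ x, ‖lin L x‖ ≤ c * ‖x‖) (P : Set (ι → ℝ)) (hP : PU n P) (A : Set (ι → ℝ)) (hA : A ⊆ P)
    (s δ ρ lam : ℝ) (hs : 0 < s) (hs1 : s ≤ 1) (hρ : 0 ≤ ρ) (hρδ : 2 * ρ < δ) (hlam : 0 ≤ lam)
    (hdiam : ∀ x ∈ A, ∀ y ∈ A, ‖x - y‖ ≤ ρ)
    (H : ∀ a ∈ A, ∀ r : ℝ, 0 < r → r < δ → μH[(n : ℝ)] (P ∩ cone L a r s) ≤ ENNReal.ofReal (lam * (r * s) ^ n)) :
    μH[(n : ℝ)] A ≤ ENNReal.ofReal (2 * lam * (48 * (c + 1) * ρ) ^ n) := by
  classical
  set A0 : Set (ι → ℝ) := {a | a ∈ A ∧ ∀ y ∈ A, s / 4 * ‖y - a‖ ≤ ‖lin L (y - a)‖} with hA0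
  have hnull : μH[(n : ℝ)] A0 = 0 := by
    apply j3482_null L P hP A0 (fun a ha => hA ha.1) s hs
    intro a ha y hy
    exact ha.2 y hy.1
  set A1 : Set (ι → ℝ) := A \ A0 with hA1
  have hsel : ∀ a ∈ A1, ∃ (h : ℝ) (y : ι → ℝ), 0 < h ∧ h ≤ ρ ∧ y ∈ A ∧ ‖lin L (y - a)‖ < s / 4 * ‖y - a‖ ∧
      3 / 4 * h ≤ ‖y - a‖ ∧
      ‖y - a‖ ≤ h ∧ ∀ x ∈ A, ‖lin L (x - a)‖ < s / 4 * ‖x - a‖ → ‖x - a‖ ≤ h := by
    intro a ha
    apply j3482_sel L A s ρ hs hdiam a ha.1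
    by_contra hcon
    push Not at hcon
    exact ha.2 ⟨ha.1, hcon⟩
  choose! h y hpos hleρ hyA hy1 hy2 hy3 hmax using hsel
  have hr_le : ∀ a ∈ A1, s / 24 * h a ≤ ρ := by
    intro a ha
    have h1 := hpos a ha
    have h2 := hleρ a ha
    nlinarith
  obtain ⟨u, hu, hdisj, hcov⟩ := Vitali.exists_disjoint_subfamily_covering_enlargement_closedBall
    A1 (fun a => lin L a) (fun a => s / 24 * h a) ρ hr_le 5 (by norm_num)
  have hrpos : ∀ a ∈ u, 0 < s / 24 * h a := fun a ha => by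
    have := hpos a (hu ha)
    positivity
  have hcount : u.Countable := by
    apply hdisj.countable_of_nonempty_interior
    intro a ha
    rw [interior_closedBall _ (hrpos a ha).ne']
    exact ⟨lin L a, mem_ball_self (hrpos a ha)⟩
  -- measure of each piece
  have hpiece : ∀ a ∈ u, μH[(n : ℝ)] {x | x ∈ A ∧ ‖lin L (x - a)‖ < s / 4 * h a} ≤
      ENNReal.ofReal (2 * lam * 24 ^ n) * volume (closedBall (lin L a) (s / 24 * h a)) := by
    intro a ha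
    have ha1 := hu ha
    have hp := hpos a ha1
    have hsub : {x | x ∈ A ∧ ‖lin L (x - a)‖ < s / 4 * h a} ⊆
        (P ∩ cone L a (2 * h a) s) ∪ (P ∩ cone L (y a) (2 * h a) s) := by
      rintro x ⟨hx, hxC⟩
      rcases j3482_cover L A s hs a (y a) (h a) hp (hy1 a ha1) (hy2 a ha1) (hy3 a ha1) (hmax a ha1) x hx hxC with h1 | h1
      · exact Or.inl ⟨hA hx, h1⟩
      · exact Or.inr ⟨hA hx, h1⟩
    have hlt : 2 * h a < δ := by
      have := hleρ a ha1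
      linarith
    have hH1 := H a ha1.1 (2 * h a) (by positivity) hlt
    have hH2 := H (y a) (hyA a ha1) (2 * h a) (by positivity) hlt
    rw [Real.volume_pi_closedBall _ (hrpos a ha).le, Fintype.card_fin, ← ENNReal.ofReal_mul (by positivity)]
    calc μH[(n : ℝ)] {x | x ∈ A ∧ ‖lin L (x - a)‖ < s / 4 * h a}
        ≤ μH[(n : ℝ)] ((P ∩ cone L a (2 * h a) s) ∪ (P ∩ cone L (y a) (2 * h a) s)) := measure_mono hsub
      _ ≤ _ := measure_union_le _ _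
      _ ≤ ENNReal.ofReal (lam * (2 * h a * s) ^ n) + ENNReal.ofReal (lam * (2 * h a * s) ^ n) := add_le_add hH1 hH2
      _ = ENNReal.ofReal (2 * lam * 24 ^ n * (2 * (s / 24 * h a)) ^ n) := by
          rw [← ENNReal.ofReal_add (by positivity) (by positivity)]
          congr 1
          have e : 2 * lam * 24 ^ n * (2 * (s / 24 * h a)) ^ n = 2 * lam * (24 * (2 * (s / 24 * h a))) ^ n := by
            rw [mul_pow 24]; ring
          rw [e, show 24 * (2 * (s / 24 * h a)) = 2 * h a * s by ring]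
          ring
  -- covering
  have hcover : A ⊆ A0 ∪ ⋃ a ∈ u, {x | x ∈ A ∧ ‖lin L (x - a)‖ < s / 4 * h a} := by
    intro x hx
    by_cases hx0 : x ∈ A0
    · exact Or.inl hx0
    · right
      have hx1 : x ∈ A1 := ⟨hx, hx0⟩
      obtain ⟨b, hb, hsub⟩ := hcov x hx1
      have hxpos : 0 ≤ s / 24 * h x := by
        have := hpos x hx1
        positivity
      have h1 : lin L x ∈ closedBall (lin L b) (5 * (s / 24 * h b)) := hsub (mem_closedBall_self hxpos)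
      rw [mem_closedBall, dist_eq_norm, ← j3482_lin_sub] at h1
      simp only [mem_iUnion]
      refine ⟨b, hb, hx, lt_of_le_of_lt h1 ?_⟩
      have h2 : 0 < s * h b := mul_pos hs (hpos b (hu hb))
      linarith
  rcases u.eq_empty_or_nonempty with hue | ⟨a0, ha0⟩
  · have : A ⊆ A0 := by
      intro x hx
      rcases hcover hx with h1 | h1
      · exact h1
      · rw [hue] at h1
        simp at h1
    rw [measure_mono_null this hnull]
    exact zero_le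
  -- total volume
  have hball : (⋃ a ∈ u, closedBall (lin L a) (s / 24 * h a)) ⊆ closedBall (lin L a0) ((c + 1) * ρ) := by
    intro z hz
    simp only [mem_iUnion] at hz
    obtain ⟨a, ha, hz⟩ := hz
    rw [mem_closedBall] at hz ⊢
    have h1 : dist (lin L a) (lin L a0) ≤ c * ρ := by
      rw [dist_eq_norm, ← j3482_lin_sub]
      exact (hc _).trans (mul_le_mul_of_nonneg_left (hdiam a (hu ha).1 a0 (hu ha0).1) hc0)
    have h2 := hr_le a (hu ha)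
    calc dist z (lin L a0) ≤ dist z (lin L a) + dist (lin L a) (lin L a0) := dist_triangle _ _ _
      _ ≤ (c + 1) * ρ := by linarith
  have hvol : ∑' a : u, volume (closedBall (lin L (a : ι → ℝ)) (s / 24 * h a)) ≤
      ENNReal.ofReal ((2 * ((c + 1) * ρ)) ^ n) := by
    rw [← measure_biUnion hcount hdisj (fun a _ => isClosed_closedBall.measurableSet)]
    refine (measure_mono hball).trans ?_
    rw [Real.volume_pi_closedBall _ (by positivity), Fintype.card_fin]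
  calc μH[(n : ℝ)] A ≤ μH[(n : ℝ)] (A0 ∪ ⋃ a ∈ u, {x | x ∈ A ∧ ‖lin L (x - a)‖ < s / 4 * h a}) := measure_mono hcover
    _ ≤ μH[(n : ℝ)] A0 + μH[(n : ℝ)] (⋃ a ∈ u, {x | x ∈ A ∧ ‖lin L (x - a)‖ < s / 4 * h a}) := measure_union_le _ _
    _ = μH[(n : ℝ)] (⋃ a ∈ u, {x | x ∈ A ∧ ‖lin L (x - a)‖ < s / 4 * h a}) := by rw [hnull, zero_add]
    _ ≤ ∑' a : u, μH[(n : ℝ)] {x | x ∈ A ∧ ‖lin L (x - (a : ι → ℝ))‖ < s / 4 * h a} :=
        measure_biUnion_le _ hcount _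
    _ ≤ ∑' a : u, ENNReal.ofReal (2 * lam * 24 ^ n) * volume (closedBall (lin L (a : ι → ℝ)) (s / 24 * h a)) :=
        ENNReal.tsum_le_tsum fun a => hpiece a a.2
    _ = ENNReal.ofReal (2 * lam * 24 ^ n) * ∑' a : u, volume (closedBall (lin L (a : ι → ℝ)) (s / 24 * h a)) :=
        ENNReal.tsum_mul_left
    _ ≤ ENNReal.ofReal (2 * lam * 24 ^ n) * ENNReal.ofReal ((2 * ((c + 1) * ρ)) ^ n) := by gcongr
    _ = ENNReal.ofReal (2 * lam * (48 * (c + 1) * ρ) ^ n) := by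
        rw [← ENNReal.ofReal_mul (by positivity)]
        congr 1
        rw [show 48 * (c + 1) * ρ = 24 * (2 * ((c + 1) * ρ)) by ring, mul_pow 24]
        ring

end Pool.Agent.Helper924_BF
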