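import Pool.Agent.Helper924_BF.Defs

/-! helper924, MP_8115c2_gt, job BF11 DECOMP: decomposition of a set of finite Hausdorff measure into a rectifiable and a purely
unrectifiable part.
PROOF IN WORDS. Consider all countable families `φ : ℕ → (Fin n → ℝ) → (ι → ℝ)` of maps which are Lipschitz on all of `Fin n → ℝ` (the family of
constant maps shows there is one) and the value `μH[n] (S ∩ ⋃ i, range (φ i)) ≤ μH[n] S < ∞`. Each `range (φ i)` is sigma-compact, hence
Borel. Let `α` be the supremum of the values; take families with values tending to `α` and put them together into one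
countable family (`Nat.pair`/`Nat.unpair`): it attains `α`. Let `R = ⋃ i, range (φ i)` for this family and `P = S \ R`. If `B`, `ψ` are such that `ψ` is
Lipschitz on `B` and `μH[n] (P ∩ ψ '' B) > 0`, extend `ψ` to a Lipschitz map on `Fin n → ℝ` (`LipschitzOnWith.extend_pi`) and add it to the
family: the value becomes at least `μH[n] (S ∩ R) + μH[n] (P ∩ range ψ) > α` (additivity, `S ∩ R` and `P ∩ range ψ` being disjoint and
`R` Borel; finiteness of `α`), a contradiction. -/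
open MeasureTheory Metric Set Filter
open scoped ENNReal NNReal Topology

namespace Pool.Agent.Helper924_BF

theorem decomp {ι : Type} [Fintype ι] {n : ℕ} (S : Set (ι → ℝ)) (hS : MeasurableSet S) (hfin : μH[(n : ℝ)] S ≠ ∞) :
    ∃ (φ : ℕ → (Fin n → ℝ) → (ι → ℝ)) (K : ℕ → ℝ≥0), (∀ i, LipschitzWith (K i) (φ i)) ∧
      MeasurableSet (⋃ i, range (φ i)) ∧ PU n (S \ ⋃ i, range (φ i)) := by
  classical
  have hmeas : ∀ (f : (Fin n → ℝ) → (ι → ℝ)), Continuous f → MeasurableSet (range f) := by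
    intro f hf
    obtain ⟨K, hK, hKu⟩ := isSigmaCompact_range hf
    rw [← hKu]
    exact MeasurableSet.iUnion fun k => (hK k).measurableSet
  let F : Set (ℕ → (Fin n → ℝ) → (ι → ℝ)) := {φ | ∀ i, ∃ K : ℝ≥0, LipschitzWith K (φ i)}
  let v : (ℕ → (Fin n → ℝ) → (ι → ℝ)) → ℝ≥0∞ := fun φ => μH[(n : ℝ)] (S ∩ ⋃ i, range (φ i))
  have hFne : F.Nonempty := ⟨fun _ _ => 0, fun _ => ⟨0, LipschitzWith.const' 0⟩⟩
  obtain ⟨u, _, hu, huS⟩ := exists_seq_tendsto_sSup (hFne.image v) (OrderTop.bddAbove _)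
  choose Φ hΦF hΦv using huS
  let φ : ℕ → (Fin n → ℝ) → (ι → ℝ) := fun m => Φ (Nat.unpair m).1 (Nat.unpair m).2
  have hφF : φ ∈ F := fun m => hΦF (Nat.unpair m).1 (Nat.unpair m).2
  have hmono : ∀ k, u k ≤ v φ := by
    intro k
    rw [← hΦv k]
    refine measure_mono (inter_subset_inter_right _ ?_)
    refine iUnion_subset fun i => ?_
    have h1 : φ (Nat.pair k i) = Φ k i := by
      simp only [φ, Nat.unpair_pair]
    rw [← h1]
    exact subset_iUnion (fun m => range (φ m)) (Nat.pair k i)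
  have hsup : sSup (v '' F) ≤ v φ := le_of_tendsto' hu hmono
  have hRm : MeasurableSet (⋃ i, range (φ i)) := by
    refine MeasurableSet.iUnion fun i => ?_
    obtain ⟨K, hK⟩ := hφF i
    exact hmeas _ hK.continuous
  have hφF' := hφF
  choose K hK using hφF'
  refine ⟨φ, K, hK, hRm, ?_⟩
  intro B ψ L hL
  obtain ⟨g, hg, hgeq⟩ := hL.extend_pi
  have hsub : (S \ ⋃ i, range (φ i)) ∩ ψ '' B ⊆ (S \ ⋃ i, range (φ i)) ∩ range g := by
    refine inter_subset_inter_right _ ?_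
    rintro _ ⟨x, hx, rfl⟩
    exact ⟨x, (hgeq hx).symm⟩
  refine measure_mono_null hsub ?_
  by_contra hne
  let φ' : ℕ → (Fin n → ℝ) → (ι → ℝ) := fun m => Nat.casesOn m g (fun i => φ i)
  have h0 : φ' 0 = g := rfl
  have hs : ∀ i, φ' (i + 1) = φ i := fun i => rfl
  have hφ'F : φ' ∈ F := by
    intro m
    cases m with
    | zero => exact ⟨L, hg⟩
    | succ i => exact hφF i
  have hle : v φ' ≤ v φ := (le_sSup (mem_image_of_mem v hφ'F)).trans hsup
  have hfinφ : v φ ≠ ∞ := ne_top_of_le_ne_top hfin (measure_mono inter_subset_left)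
  have hU : (S ∩ ⋃ i, range (φ i)) ∪ ((S \ ⋃ i, range (φ i)) ∩ range g) ⊆ S ∩ ⋃ i, range (φ' i) := by
    rintro x (⟨hxS, hx⟩ | ⟨⟨hxS, _⟩, hx⟩)
    · obtain ⟨i, hi⟩ := mem_iUnion.1 hx
      exact ⟨hxS, mem_iUnion.2 ⟨i + 1, by rw [hs]; exact hi⟩⟩
    · exact ⟨hxS, mem_iUnion.2 ⟨0, by rw [h0]; exact hx⟩⟩
  have hadd : μH[(n : ℝ)] ((S ∩ ⋃ i, range (φ i)) ∪ ((S \ ⋃ i, range (φ i)) ∩ range g)) =
      μH[(n : ℝ)] (S ∩ ⋃ i, range (φ i)) + μH[(n : ℝ)] ((S \ ⋃ i, range (φ i)) ∩ range g) := by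
    refine measure_union' ?_ (hS.inter hRm)
    rw [Set.disjoint_left]
    rintro x ⟨_, hx⟩ ⟨⟨_, hx'⟩, _⟩
    exact hx' hx
  have hlt : v φ < v φ' := by
    calc v φ < v φ + μH[(n : ℝ)] ((S \ ⋃ i, range (φ i)) ∩ range g) :=
          ENNReal.lt_add_right hfinφ hne
      _ = μH[(n : ℝ)] ((S ∩ ⋃ i, range (φ i)) ∪ ((S \ ⋃ i, range (φ i)) ∩ range g)) := hadd.symm
      _ ≤ v φ' := measure_mono hU
  exact absurd hle (not_le.2 hlt)

end Pool.Agent.Helper924_BF
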