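import Mathlib

/-! Definitions for the Besicovitch-Federer projection theorem. -/

open MeasureTheory Metric Set Filter
open scoped ENNReal NNReal Topology

namespace Pool.Agent.Helper924_BF

/-- The linear map `ℝ^ι → ℝⁿ` with columns `L j`. -/
def lin {ι : Type} [Fintype ι] {n : ℕ} (L : ι → Fin n → ℝ) (x : ι → ℝ) : Fin n → ℝ := ∑ j, x j • L j

/-- The open double cone of opening `s` around the kernel of `L`, with vertex `a` and radius `r` (sup norms). -/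
def cone {ι : Type} [Fintype ι] {n : ℕ} (L : ι → Fin n → ℝ) (a : ι → ℝ) (r s : ℝ) : Set (ι → ℝ) :=
  {x | ‖x - a‖ < r ∧ ‖lin L (x - a)‖ < s * ‖x - a‖}

/-- Purely `n`-unrectifiable. -/
def PU {ι : Type} [Fintype ι] (n : ℕ) (P : Set (ι → ℝ)) : Prop :=
  ∀ (B : Set (Fin n → ℝ)) (φ : (Fin n → ℝ) → (ι → ℝ)) (K : ℝ≥0), LipschitzOnWith K φ B → μH[(n : ℝ)] (P ∩ φ '' B) = 0

/-- The points `x` for which the `j`-th coordinate of `x - a` is largest in absolute value. -/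
def Zr {ι : Type} [Fintype ι] (a : ι → ℝ) (j : ι) : Set (ι → ℝ) := {x | |x j - a j| = ‖x - a‖}

/-- first alternative: the normalised measure of the cones (in the region `Zr a j`) tends to `0`, uniformly in the radius -/
def ZeroAlt {ι : Type} [Fintype ι] {n : ℕ} (μ : Measure (ι → ℝ)) (P : Set (ι → ℝ)) (δ : ℝ) (a : ι → ℝ) (L : ι → Fin n → ℝ)
    (j : ι) : Prop :=
  ∀ ε : ℝ, 0 < ε → ∃ m₀ : ℕ, ∀ m ≥ m₀, ∀ r : ℚ, 0 < (r : ℝ) → (r : ℝ) < δ →
    μ (P ∩ Zr a j ∩ cone L a r ((1 / 2) ^ m)) ≤ ENNReal.ofReal (ε * (r * (1 / 2) ^ m) ^ n)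

/-- second alternative: the normalised measure of the cones is unbounded -/
def InfAlt {ι : Type} [Fintype ι] {n : ℕ} (μ : Measure (ι → ℝ)) (P : Set (ι → ℝ)) (δ : ℝ) (a : ι → ℝ) (L : ι → Fin n → ℝ)
    (j : ι) : Prop :=
  ∀ K : ℕ, ∀ m₀ : ℕ, ∃ m ≥ m₀, ∃ r : ℚ, 0 < (r : ℝ) ∧ (r : ℝ) < δ ∧
    ENNReal.ofReal (K * (r * (1 / 2) ^ m) ^ n) < μ (P ∩ Zr a j ∩ cone L a r ((1 / 2) ^ m))

/-- third alternative: the fibre of `L` through `a` contains another point of `P` at distance less than `δ` -/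
def Meet {ι : Type} [Fintype ι] {n : ℕ} (P : Set (ι → ℝ)) (δ : ℝ) (a : ι → ℝ) (L : ι → Fin n → ℝ) : Prop :=
  ∃ x ∈ P, x ≠ a ∧ ‖x - a‖ < δ ∧ lin L (x - a) = 0

end Pool.Agent.Helper924_BF
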