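import Pool.Agent.Helper924_BF.Whitney

/-! helper924, MP_8115c2_gt, job BF6 DICH (towards the Besicovitch-Federer projection theorem): a zero-infinity dichotomy for a family of
measures carried by the same set.
PROOF IN WORDS. For `M, k : ℕ` put `C M k = {b | ∀ t, 0 < t → t < (1/2)^k → ∀ r, ν r (ball b t) ≤ ofReal (M t^n)}`. This set is
closed: if `b_i → b` and `t' < t` then `ball b t' ⊆ ball b_i t` for large `i`, so `ν r (ball b t') ≤ M t^n` for all `t > t'`
(small), and let `t ↓ t'`. If `b ∉ E` and the third alternative fails at `b`, i.e. for some `K, m₀`: `ν r (ball b (2^{-m})) ≤ K (2^{-m})^n`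
for all `m ≥ m₀`, all `r`, then `b ∈ C (K 2^n) m₀` (for `t < 2^{-m₀}` choose `m ≥ m₀` with `2^{-m-1} ≤ t < 2^{-m}`, or `t ≤ 2^{-m} < 2 t`).
So it suffices that for each `M, k`, at almost every point `b` of the measurable set `C' = C M k \ E` the second alternative holds. Almost
every `b ∈ C'` is a density point: `volume (closedBall b t \ C') / volume (closedBall b t) → 0`
(`Besicovitch.ae_tendsto_measure_inter_div_of_measurableSet` applied to the complement of `C'`, or to `C'`). Fix such a `b` and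
`s = 2^{-m}` with `4 s < 2^{-k}`. For `η > 0` choose a compact `G ⊆ C' ∩ closedBall b (2 s)` with
`volume ((C' ∩ closedBall b (2 s)) \ G) < η` and replace `G` by `G ∪ {b}`. Then `ν r G ≤ ν r Eᶜ = 0` and by `whitney` (given)
`ν r (ball b s) ≤ ν r (ball b s \ G) ≤ M 10^n volume (ball b (2 s) \ G) ≤ M 10^n (volume (closedBall b (2 s) \ C') + η)`. As `η` is
arbitrary, `ν r (ball b s) ≤ M 10^n volume (closedBall b (2 s) \ C')`, which is at most `ε s^n` for all small `s`, uniformly in `r`. -/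
open MeasureTheory Metric Set Filter
open scoped ENNReal NNReal Topology

namespace Pool.Agent.Helper924_BF

theorem bf6_closed {n : ℕ} {R : Type} (ν : R → Measure (Fin n → ℝ)) (M δ : ℝ) :
    IsClosed {b : Fin n → ℝ | ∀ t, 0 < t → t < δ → ∀ r, ν r (ball b t) ≤ ENNReal.ofReal (M * t ^ n)} := by
  refine isClosed_of_closure_subset ?_
  intro b hb t ht htδ r
  rw [Metric.mem_closure_iff] at hb
  have h1 : ∀ u ∈ Ioo t δ, ν r (ball b t) ≤ ENNReal.ofReal (M * u ^ n) := by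
    intro u hu
    obtain ⟨c, hc, hbc⟩ := hb (u - t) (sub_pos.2 hu.1)
    refine le_trans (measure_mono ?_) (hc u (ht.trans hu.1) hu.2 r)
    refine ball_subset_ball' ?_
    linarith
  have h2 : Tendsto (fun u : ℝ => ENNReal.ofReal (M * u ^ n)) (𝓝[>] t) (𝓝 (ENNReal.ofReal (M * t ^ n))) := by
    refine Tendsto.mono_left ?_ nhdsWithin_le_nhds
    refine Continuous.tendsto ?_ t
    exact ENNReal.continuous_ofReal.comp (by fun_prop)
  refine ge_of_tendsto h2 ?_
  filter_upwards [Ioo_mem_nhdsGT htδ] with u hu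
  exact h1 u hu

theorem bf6_point {n : ℕ} {R : Type} (ν : R → Measure (Fin n → ℝ)) (E : Set (Fin n → ℝ))
    (hν : ∀ r, ν r Eᶜ = 0) (M δ : ℝ) (hM : 0 ≤ M) (hδ : 0 < δ) (C : Set (Fin n → ℝ)) (hC : MeasurableSet C) (hCE : C ⊆ Eᶜ)
    (H : ∀ c ∈ C, ∀ t, 0 < t → t < δ → ∀ r, ν r (ball c t) ≤ ENNReal.ofReal (M * t ^ n)) (b : Fin n → ℝ) (hb : b ∈ C)
    (hd : Tendsto (fun t => volume (Cᶜ ∩ closedBall b t) / volume (closedBall b t)) (𝓝[>] 0) (𝓝 0)) (ε : ℝ) (hε : 0 < ε) :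
    ∃ δ' > 0, ∀ s, 0 < s → s < δ' → ∀ r, ν r (ball b s) ≤ ENNReal.ofReal (ε * s ^ n) := by
  obtain ⟨A, hA⟩ : ∃ A, A = M * 10 ^ n := ⟨_, rfl⟩
  have hA0 : 0 ≤ A := by rw [hA]; positivity
  obtain ⟨η, hη⟩ : ∃ η, η = ε / (2 * 4 ^ n * (A + 1)) := ⟨_, rfl⟩
  have hη0 : 0 < η := by rw [hη]; positivity
  have h1 : ∀ᶠ t in 𝓝[>] (0:ℝ), volume (Cᶜ ∩ closedBall b t) / volume (closedBall b t) < ENNReal.ofReal η :=
    (tendsto_order.1 hd).2 _ (ENNReal.ofReal_pos.2 hη0)
  rw [eventually_nhdsWithin_iff, Metric.eventually_nhds_iff] at h1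
  obtain ⟨δ₁, hδ₁, h1⟩ := h1
  refine ⟨min (δ / 4) (δ₁ / 2), lt_min (by positivity) (by positivity), ?_⟩
  intro s hs hs' r
  have hs1 : 4 * s < δ := by
    have := lt_of_lt_of_le hs' (min_le_left _ _)
    linarith
  have hs2 : 2 * s < δ₁ := by
    have := lt_of_lt_of_le hs' (min_le_right _ _)
    linarith
  have h2s : (0:ℝ) < 2 * s := by positivity
  have h2 := h1 (y := 2 * s) (by rw [Real.dist_eq, sub_zero, abs_of_pos h2s]; exact hs2) h2s
  have h3 : volume (closedBall b (2 * s)) = ENNReal.ofReal ((4 * s) ^ n) := by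
    rw [Real.volume_pi_closedBall _ h2s.le, Fintype.card_fin]
    congr 2
    ring
  have h3pos : (0:ℝ) < (4 * s) ^ n := by positivity
  have h4 : volume (Cᶜ ∩ closedBall b (2 * s)) ≤ ENNReal.ofReal (η * (4 * s) ^ n) := by
    rw [h3] at h2
    have h5 : ENNReal.ofReal ((4 * s) ^ n) ≠ 0 := (ENNReal.ofReal_pos.2 h3pos).ne'
    rw [ENNReal.div_lt_iff (Or.inl h5) (Or.inl ENNReal.ofReal_ne_top)] at h2
    rw [ENNReal.ofReal_mul hη0.le]
    exact h2.le
  have hmeas : MeasurableSet (C ∩ closedBall b (2 * s)) := hC.inter measurableSet_closedBall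
  have hfin : volume (C ∩ closedBall b (2 * s)) ≠ ⊤ := by
    refine ne_top_of_le_ne_top ?_ (measure_mono inter_subset_right)
    rw [h3]
    exact ENNReal.ofReal_ne_top
  have hx0 : 0 < η * (4 * s) ^ n := by positivity
  obtain ⟨G, hGsub, hGc, hG⟩ := hmeas.exists_isCompact_sdiff_lt (μ := volume) hfin (ENNReal.ofReal_pos.2 hx0).ne'
  have hG'sub : insert b G ⊆ C := Set.insert_subset hb (hGsub.trans inter_subset_left)
  have hG'cl : IsClosed (insert b G) := (hGc.insert b).isClosed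
  have h6 := whitney (ν r) (insert b G) hG'cl M δ hM (fun c hc t ht htδ => H c (hG'sub hc) t ht htδ r) b
    (Set.mem_insert b G) s hs hs1
  have h7 : ν r (insert b G) = 0 := measure_mono_null (hG'sub.trans hCE) (hν r)
  have h8 : ν r (ball b s) ≤ ν r (ball b s \ insert b G) := by
    calc ν r (ball b s) ≤ ν r ((ball b s \ insert b G) ∪ insert b G) := measure_mono (by
          intro x hx
          by_cases hxG : x ∈ insert b G
          · exact Or.inr hxG
          · exact Or.inl ⟨hx, hxG⟩)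
      _ ≤ ν r (ball b s \ insert b G) + ν r (insert b G) := measure_union_le _ _
      _ = ν r (ball b s \ insert b G) := by rw [h7, add_zero]
  have h9 : volume (ball b (2 * s) \ insert b G) ≤ ENNReal.ofReal (η * (4 * s) ^ n) + ENNReal.ofReal (η * (4 * s) ^ n) := by
    calc volume (ball b (2 * s) \ insert b G)
        ≤ volume ((Cᶜ ∩ closedBall b (2 * s)) ∪ ((C ∩ closedBall b (2 * s)) \ G)) := measure_mono (by
          intro x hx
          have hx1 : x ∈ closedBall b (2 * s) := ball_subset_closedBall hx.1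
          by_cases hxC : x ∈ C
          · exact Or.inr ⟨⟨hxC, hx1⟩, fun hxG => hx.2 (Set.mem_insert_of_mem b hxG)⟩
          · exact Or.inl ⟨hxC, hx1⟩)
      _ ≤ volume (Cᶜ ∩ closedBall b (2 * s)) + volume ((C ∩ closedBall b (2 * s)) \ G) := measure_union_le _ _
      _ ≤ _ := add_le_add h4 hG.le
  calc ν r (ball b s) ≤ ENNReal.ofReal (M * 10 ^ n) * volume (ball b (2 * s) \ insert b G) := h8.trans h6
    _ ≤ ENNReal.ofReal (M * 10 ^ n) * (ENNReal.ofReal (η * (4 * s) ^ n) + ENNReal.ofReal (η * (4 * s) ^ n)) :=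
        mul_le_mul_right h9 _
    _ = ENNReal.ofReal (A * (η * (4 * s) ^ n + η * (4 * s) ^ n)) := by
        rw [← ENNReal.ofReal_add hx0.le hx0.le, ← hA, ← ENNReal.ofReal_mul hA0]
    _ ≤ ENNReal.ofReal (ε * s ^ n) := by
        refine ENNReal.ofReal_le_ofReal ?_
        have e1 : A * (η * (4 * s) ^ n + η * (4 * s) ^ n) = (A / (A + 1)) * (ε * s ^ n) := by
          rw [hη, mul_pow]
          have : A + 1 ≠ 0 := by positivity
          field_simp
          ring
        rw [e1]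
        have e2 : A / (A + 1) ≤ 1 := by
          rw [div_le_one (by positivity)]
          linarith
        have e3 : 0 ≤ ε * s ^ n := by positivity
        calc A / (A + 1) * (ε * s ^ n) ≤ 1 * (ε * s ^ n) := mul_le_mul_of_nonneg_right e2 e3
          _ = ε * s ^ n := one_mul _

theorem dichotomy {n : ℕ} {R : Type} (ν : R → Measure (Fin n → ℝ)) (E : Set (Fin n → ℝ)) (hE : MeasurableSet E)
    (hν : ∀ r, ν r Eᶜ = 0) :
    ∀ᵐ b : Fin n → ℝ, b ∈ E ∨
      (∀ ε : ℝ, 0 < ε → ∃ m₀ : ℕ, ∀ m ≥ m₀, ∀ r, ν r (ball b ((1 / 2) ^ m)) ≤ ENNReal.ofReal (ε * ((1 / 2) ^ m) ^ n)) ∨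
      (∀ K : ℕ, ∀ m₀ : ℕ, ∃ m ≥ m₀, ∃ r, ENNReal.ofReal (K * ((1 / 2) ^ m) ^ n) < ν r (ball b ((1 / 2) ^ m))) := by
  have key : ∀ K k : ℕ, ∀ᵐ b : Fin n → ℝ,
      b ∈ {b : Fin n → ℝ | ∀ t, 0 < t → t < (1 / 2 : ℝ) ^ k → ∀ r, ν r (ball b t) ≤ ENNReal.ofReal ((K : ℝ) * t ^ n)} \ E →
      (∀ ε : ℝ, 0 < ε → ∃ m₀ : ℕ, ∀ m ≥ m₀, ∀ r, ν r (ball b ((1 / 2) ^ m)) ≤ ENNReal.ofReal (ε * ((1 / 2) ^ m) ^ n)) := by
    intro K k
    have hmeas : MeasurableSet ({b : Fin n → ℝ | ∀ t, 0 < t → t < (1 / 2 : ℝ) ^ k → ∀ r,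
        ν r (ball b t) ≤ ENNReal.ofReal ((K : ℝ) * t ^ n)} \ E) := (bf6_closed ν K ((1 / 2) ^ k)).measurableSet.diff hE
    filter_upwards [Besicovitch.ae_tendsto_measure_inter_div_of_measurableSet volume hmeas.compl] with b hb hbC ε hε
    rw [Set.indicator_of_notMem (by simpa using hbC)] at hb
    obtain ⟨δ', hδ', hp⟩ := bf6_point ν E hν K ((1 / 2) ^ k) (Nat.cast_nonneg K) (by positivity) _ hmeas
      (fun x hx => hx.2) (fun c hc => hc.1) b hbC hb ε hε
    obtain ⟨m₀, hm₀⟩ := exists_pow_lt_of_lt_one hδ' (by norm_num : (1 / 2 : ℝ) < 1)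
    refine ⟨m₀, fun m hm r => hp _ (by positivity) (lt_of_le_of_lt ?_ hm₀) r⟩
    exact pow_le_pow_of_le_one (by norm_num) (by norm_num) hm
  have hall := ae_all_iff.2 (fun K => ae_all_iff.2 (key K))
  filter_upwards [hall] with b hb
  by_cases hbE : b ∈ E
  · exact Or.inl hbE
  refine Or.inr ?_
  by_cases h3 : ∀ K : ℕ, ∀ m₀ : ℕ, ∃ m ≥ m₀, ∃ r, ENNReal.ofReal (K * ((1 / 2) ^ m) ^ n) < ν r (ball b ((1 / 2) ^ m))
  · exact Or.inr h3
  refine Or.inl ?_
  push Not at h3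
  obtain ⟨K, m₀, h3⟩ := h3
  refine hb (K * 2 ^ n) m₀ ⟨?_, hbE⟩
  intro t ht htm r
  have ht1 : t ≤ 1 := htm.le.trans (pow_le_one₀ (by norm_num) (by norm_num))
  obtain ⟨m, hm1, hm2⟩ := exists_nat_pow_near_of_lt_one ht ht1 (by norm_num : (0 : ℝ) < 1 / 2) (by norm_num : (1 / 2 : ℝ) < 1)
  have hm : m₀ ≤ m := by
    by_contra hcon
    push Not at hcon
    have h5 : (1 / 2 : ℝ) ^ m₀ ≤ (1 / 2) ^ (m + 1) := pow_le_pow_of_le_one (by norm_num) (by norm_num) hcon
    linarith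
  calc ν r (ball b t) ≤ ν r (ball b ((1 / 2) ^ m)) := measure_mono (ball_subset_ball hm2)
    _ ≤ ENNReal.ofReal (K * ((1 / 2) ^ m) ^ n) := h3 m hm r
    _ ≤ ENNReal.ofReal (((K * 2 ^ n : ℕ) : ℝ) * t ^ n) := by
        refine ENNReal.ofReal_le_ofReal ?_
        have h6 : (1 / 2 : ℝ) ^ m ≤ 2 * t := by
          rw [pow_succ] at hm1
          linarith
        push_cast
        calc (K : ℝ) * ((1 / 2) ^ m) ^ n ≤ K * (2 * t) ^ n := by
              refine mul_le_mul_of_nonneg_left ?_ (Nat.cast_nonneg K)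
              exact pow_le_pow_left₀ (by positivity) h6 n
          _ = K * 2 ^ n * t ^ n := by rw [mul_pow]; ring

end Pool.Agent.Helper924_BF
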