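import Pool.Agent.Helper924_BF.Defs

/-! helper924, MP_8115c2_gt, job BF5 WHITNEY (towards the Besicovitch-Federer projection theorem).
PROOF IN WORDS. For `y ∈ ball b s \ G` let `d y = infDist y G`; `0 < d y ≤ dist y b < s` (`G` closed). Apply Vitali's covering lemma
(`Vitali.exists_disjoint_subfamily_covering_enlargement_closedBall`, `τ = 5`) to the balls `closedBall y (d y / 10)`,
`y ∈ ball b s \ G`: there is a subset `u` with disjoint balls (so `u` is countable) such that every `y` lies in some
`closedBall z (d z / 2)`, `z ∈ u`. Pick `c_z ∈ G` with `dist z c_z = d z` (`IsClosed.exists_infDist_eq_dist`); then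
`closedBall z (d z / 2) ⊆ ball c_z (2 d z)` and `2 d z < 2 s < s₀`, so `ν (closedBall z (d z/2)) ≤ M (2 d z)^n =
M 10^n volume (closedBall z (d z / 10))` (`Real.volume_pi_closedBall`: volume of a closed ball of radius `t` is `(2 t)^n`). The balls
`closedBall z (d z/10)` are disjoint, miss `G` and lie in `ball b (2 s)`. Sum up. -/
open MeasureTheory Metric Set Filter
open scoped ENNReal NNReal Topology

namespace Pool.Agent.Helper924_BF

theorem whitney {n : ℕ} (ν : Measure (Fin n → ℝ)) (G : Set (Fin n → ℝ)) (hG : IsClosed G) (M s₀ : ℝ) (hM : 0 ≤ M)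
    (H : ∀ c ∈ G, ∀ t : ℝ, 0 < t → t < s₀ → ν (ball c t) ≤ ENNReal.ofReal (M * t ^ n)) (b : Fin n → ℝ) (hb : b ∈ G)
    (s : ℝ) (hs : 0 < s) (hs₀ : 4 * s < s₀) :
    ν (ball b s \ G) ≤ ENNReal.ofReal (M * 10 ^ n) * volume (ball b (2 * s) \ G) := by
  have hne : G.Nonempty := ⟨b, hb⟩
  have hpos : ∀ y ∈ ball b s \ G, 0 < infDist y G := fun y hy =>
    (hG.notMem_iff_infDist_pos hne).1 hy.2
  have hlt : ∀ y ∈ ball b s \ G, infDist y G < s := fun y hy =>
    lt_of_le_of_lt (infDist_le_dist_of_mem hb) hy.1
  obtain ⟨u, hut, hdis, hcov⟩ := Vitali.exists_disjoint_subfamily_covering_enlargement_closedBall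
    (ball b s \ G) (fun y => y) (fun y => infDist y G / 10) (s / 10)
    (fun y hy => by have := hlt y hy; linarith) 5 (by norm_num)
  have hcount : u.Countable := by
    apply hdis.countable_of_nonempty_interior
    intro z hz
    refine ⟨z, ?_⟩
    rw [mem_interior]
    exact ⟨ball z (infDist z G / 10), ball_subset_closedBall, isOpen_ball,
      mem_ball_self (by have := hpos z (hut hz); positivity)⟩
  have h1 : ball b s \ G ⊆ ⋃ z ∈ u, closedBall z (infDist z G / 2) := by
    intro y hy
    obtain ⟨z, hz, hzy⟩ := hcov y hy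
    have hyy : y ∈ closedBall y (infDist y G / 10) :=
      mem_closedBall_self (by have := hpos y hy; positivity)
    have h2 := hzy hyy
    simp only [mem_iUnion]
    refine ⟨z, hz, ?_⟩
    have e : 5 * (infDist z G / 10) = infDist z G / 2 := by ring
    rwa [e] at h2
  have h2 : ∀ z ∈ u, ν (closedBall z (infDist z G / 2)) ≤
      ENNReal.ofReal (M * 10 ^ n) * volume (closedBall z (infDist z G / 10)) := by
    intro z hz
    have hp := hpos z (hut hz)
    have hl := hlt z (hut hz)
    obtain ⟨c, hc, hcd⟩ := hG.exists_infDist_eq_dist hne z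
    have h3 : closedBall z (infDist z G / 2) ⊆ ball c (2 * infDist z G) := by
      intro w hw
      rw [mem_closedBall] at hw
      rw [mem_ball]
      have := dist_triangle w z c
      linarith
    refine le_trans (measure_mono h3) (le_trans (H c hc _ (by linarith) (by linarith)) ?_)
    rw [Real.volume_pi_closedBall _ (by positivity), ← ENNReal.ofReal_mul (by positivity)]
    apply ENNReal.ofReal_le_ofReal
    rw [Fintype.card_fin, mul_assoc, ← mul_pow]
    have e : 10 * (2 * (infDist z G / 10)) = 2 * infDist z G := by ring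
    rw [e]
  have h4 : (⋃ z ∈ u, closedBall z (infDist z G / 10)) ⊆ ball b (2 * s) \ G := by
    intro w hw
    simp only [mem_iUnion] at hw
    obtain ⟨z, hz, hw⟩ := hw
    have hp := hpos z (hut hz)
    have hl := hlt z (hut hz)
    have hzb : dist z b < s := (hut hz).1
    rw [mem_closedBall] at hw
    refine ⟨?_, ?_⟩
    · rw [mem_ball]
      have := dist_triangle w z b
      linarith
    · intro hwG
      have h5 := infDist_le_dist_of_mem (x := z) hwG
      rw [dist_comm] at h5
      linarith
  calc ν (ball b s \ G) ≤ ν (⋃ z ∈ u, closedBall z (infDist z G / 2)) := measure_mono h1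
    _ ≤ ∑' z : u, ν (closedBall (z : Fin n → ℝ) (infDist (z : Fin n → ℝ) G / 2)) :=
        measure_biUnion_le ν hcount _
    _ ≤ ∑' z : u, ENNReal.ofReal (M * 10 ^ n) *
          volume (closedBall (z : Fin n → ℝ) (infDist (z : Fin n → ℝ) G / 10)) :=
        ENNReal.tsum_le_tsum fun z => h2 z z.2
    _ = ENNReal.ofReal (M * 10 ^ n) *
          ∑' z : u, volume (closedBall (z : Fin n → ℝ) (infDist (z : Fin n → ℝ) G / 10)) :=
        ENNReal.tsum_mul_left
    _ = ENNReal.ofReal (M * 10 ^ n) *
          volume (⋃ z ∈ u, closedBall z (infDist z G / 10)) := by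
        rw [measure_biUnion hcount hdis (fun z _ => isClosed_closedBall.measurableSet)]
    _ ≤ ENNReal.ofReal (M * 10 ^ n) * volume (ball b (2 * s) \ G) := by
        gcongr

end Pool.Agent.Helper924_BF
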